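import Pool.Agent.TH342.CV.Pairs
import Pool.Agent.H370R2.Expl1
import Pool.Agent.Results.MP_8958e8_nt.EveryWindow

/-!
# Pairs of zeros of any two Dirichlet L-functions in every long window, at every shift

No hypothesis is assumed.  Let `p = 2 - c_MT⁻¹ = 0.6725…` be the Montgomery-Taylor proportion.

For every `ε > 0` there is a length `L` such that for any two primitive Dirichlet L-functions `F`,
`G` (equal or not; modulus `1`: the Riemann zeta function), all large `T`, `T ^ (1 - δ) ≤ H ≤ T`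
and every window `(α, β)` with `β - α ≥ L`, `0 ≤ α`, `2πβ / log T ≤ T ^ (1 + δ)`, the number of
pairs of simple zeros on the critical line, with ordinates `x ∈ (T, T + H]` for `F` and `y` for `G`
and with `(y - x) log T / 2π` in `(α, β)`, is at least `2p - 1 - ε`, that is `34.49 %`, of the
number `(β - α) (H / 2π) log T` that is expected.  For zeta the same is proved for the whole
interval `(0, T]` in the normalisation of the problem, uniformly for all windows.  For any two
L-functions and all windows of length `≥ 2` and `≥ 7/5` the proportions `1/15` and `1/1100` are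
proved.  (For the pairs of all zeros, simple or not and on the critical line or not, the asymptotic
proportion `1 + o(1)` in long windows follows from the theorems of Selberg and Fujii about
`S(t + h) - S(t)`; the point here are the simple zeros on the critical line and the short windows.)

Idea of the proof.  Cut the line into cells of `g` mean spacings, `g` large.  By Bessel's inequality
for sampled exponentials, the best test matrix in the trace inequality for the zeros gains so much
in a cell with more than `g (1 + o(1))` points that the cell counts for at most `g (1 + o(1))`.  So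
the counts of the simple critical zeros in the cells, truncated at `g (1 + o(1))`, have average at
least `(p - o(1)) g`, for both L-functions and at every shift, and if two functions with values in
`[0, 1]` have averages at least `p`, then their product has average at least `2p - 1`.
-/

open Filter Topology Complex

namespace Pool.Agent.Results.MP_8958e8_nt.AnyTwoLFunctions

open Pool.Agent.TH342.CV

/-- the Montgomery-Taylor proportion `2 - c_MT⁻¹ = 3/2 - cot(1/√2)/√2 = 0.6725…` -/
noncomputable def p : ℝ := 3 / 2 - Real.cot (1 / Real.sqrt 2) / Real.sqrt 2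

/-- `1/2 + i x` is a simple zero of `F` -/
def Simple (F : ℂ → ℂ) (x : ℝ) : Prop :=
  F (1 / 2 + x * I) = 0 ∧ analyticOrderNatAt F (1 / 2 + x * I) = 1

/-- the pairs `(x, y)` of ordinates of simple zeros on the critical line, `x ∈ (T, T + H]` of `F` and
`y` of `G`, with `(y - x) log T / 2π` in the open interval `(α, β)` -/
def pairs (F G : ℂ → ℂ) (T H α β : ℝ) : Set (ℝ × ℝ) :=
  {z | T < z.1 ∧ z.1 ≤ T + H ∧ Simple F z.1 ∧ Simple G z.2 ∧
    α < (z.2 - z.1) * Real.log T / (2 * Real.pi) ∧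
    (z.2 - z.1) * Real.log T / (2 * Real.pi) < β}

/-- the pairs `(x, y)` of ordinates in `(0, T]` of simple zeros of zeta on the critical line, with
`(y - x) log T / 2π` in the open interval `(α, β)` -/
def zetaPairs (T α β : ℝ) : Set (ℝ × ℝ) :=
  {z | 0 < z.1 ∧ z.1 ≤ T ∧ 0 < z.2 ∧ z.2 ≤ T ∧ Simple riemannZeta z.1 ∧ Simple riemannZeta z.2 ∧
    α < (z.2 - z.1) * Real.log T / (2 * Real.pi) ∧
    (z.2 - z.1) * Real.log T / (2 * Real.pi) < β}

/-- modulus `1`: the Riemann zeta function -/
theorem zeta_case (χ : DirichletCharacter ℂ 1) :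
    χ.IsPrimitive ∧ DirichletCharacter.LFunction χ = riemannZeta := by
  refine ⟨?_, DirichletCharacter.LFunction_modOne_eq⟩
  rw [DirichletCharacter.level_one' χ rfl]
  exact DirichletCharacter.isPrimitive_one_level_one

/-- the sets of pairs of ordinates of zeta are finite -/
theorem zetaPairs_finite (T α β : ℝ) : (zetaPairs T α β).Finite := by
  have h1 := EveryWindow.ord_finite (EveryWindow.zeros_finite_zeta T)
  refine (h1.prod h1).subset ?_
  have hord : ∀ x : ℝ, Simple riemannZeta x → 0 < x → x ≤ T →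
      EveryWindow.IsSimpleOrd riemannZeta 0 T x := by
    intro x hx h1 h2
    have hre : (1 / 2 + (x : ℂ) * I).re = 1 / 2 := by simp
    have him : (1 / 2 + (x : ℂ) * I).im = x := by simp
    refine ⟨⟨hx.1, ?_, ?_, ?_, ?_⟩, hx.2⟩
    · rw [hre]; norm_num
    · rw [hre]; norm_num
    · rw [him]; exact h1
    · rw [him]; exact h2
  rintro ⟨x, y⟩ ⟨p1, p2, p3, p4, p5, p6, -, -⟩
  exact ⟨hord x p5 p1 p2, hord y p6 p3 p4⟩

/-- the sets of pairs are finite -/
theorem pairs_finite {q q' : ℕ} [NeZero q] [NeZero q'] (χ : DirichletCharacter ℂ q)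
    (χ' : DirichletCharacter ℂ q') (hχ : χ.IsPrimitive) (hχ' : χ'.IsPrimitive) (T H α β : ℝ)
    (hT : 2 ≤ T) (hα : 0 ≤ α) :
    (pairs (DirichletCharacter.LFunction χ) (DirichletCharacter.LFunction χ') T H α β).Finite :=
  PP_finite (H370.good_dirichlet χ hχ) (H370.good_dirichlet χ' hχ') hT hα

lemma p_eq : p = 2 - H370.cMTinv := by
  unfold p H370.cMTinv
  ring

lemma p_num : 0.672497 ≤ p := by
  rw [p_eq]
  have := H370.Expl.cMTinv_num
  norm_num at this ⊢
  linarith

lemma p_le : p ≤ 1 := by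
  rw [p_eq]
  have := H370.cMTinv_gt_one
  linarith

/-- from short intervals to the whole range, for zeta -/
lemma whole {ε : ℝ} (hε : 0 < ε) : ∃ L T₀ : ℝ, 0 < L ∧ ∀ T : ℝ, T₀ ≤ T → ∀ α β : ℝ, 0 ≤ α →
    α + L ≤ β → ((2 * p - 1) * (1 - β * (2 * Real.pi / Real.log T) / T) - ε) * (β - α) *
      (T / (2 * Real.pi) * Real.log T) ≤ ((zetaPairs T α β).ncard : ℝ) := by
  classical
  have hpi := Real.pi_pos
  have hpn := p_num
  have hpl := p_le
  set e : ℝ := min ε 1 with he
  have he0 : 0 < e := by rw [he]; positivity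
  have he1 : e ≤ 1 := min_le_right _ _
  have heε : e ≤ ε := min_le_left _ _
  obtain ⟨L₀, hL₀, d, hd0, hd1, h⟩ := long_windows (ε := e / 4) (by positivity)
  have hgz : H370.GoodL riemannZeta := H370.good_zeta
  obtain ⟨T₁, hT₁, hT⟩ := h riemannZeta riemannZeta hgz hgz
  set c : ℝ := 2 * p - 1 with hc
  have hc0 : 0.344994 ≤ c := by rw [hc]; norm_num at hpn ⊢; linarith
  have hc1 : c ≤ 1 := by rw [hc]; linarith
  -- the number of pieces
  set Q : ℕ := ⌈8 / e⌉₊ with hQ
  have hQe : 8 / e ≤ Q := Nat.le_ceil _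
  have hQ8 : (8 : ℝ) ≤ Q := by
    refine le_trans ?_ hQe
    rw [le_div_iff₀ he0]; linarith
  have hQ0 : (0 : ℝ) < Q := by linarith
  have hQe2 : 2 / (Q : ℝ) ≤ e / 4 := by
    rw [div_le_iff₀ he0] at hQe
    rw [div_le_div_iff₀ hQ0 (by norm_num)]
    linarith
  -- large `T`
  have htop : Tendsto (fun T : ℝ => T ^ d) atTop atTop := tendsto_rpow_atTop hd0
  obtain ⟨T₂, hT₂⟩ := (htop.eventually_ge_atTop ((Q : ℝ) ^ (1 + d))).exists_forall_of_atTop
  obtain ⟨T₃, hT₃⟩ := (Real.tendsto_log_atTop.eventually_ge_atTop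
    (max 1 (16 * Real.log Q / e))).exists_forall_of_atTop
  refine ⟨2 * L₀, max (max (T₁ * Q) T₂) (max T₃ 10), by positivity, fun T hTT α β hα hαβ => ?_⟩
  have hTT1 : T₁ * Q ≤ T := ((le_max_left _ _).trans (le_max_left _ _)).trans hTT
  have hTd := hT₂ T (((le_max_right _ _).trans (le_max_left _ _)).trans hTT)
  have hTl := hT₃ T (((le_max_left _ _).trans (le_max_right _ _)).trans hTT)
  have hT10 : 10 ≤ T := ((le_max_right _ _).trans (le_max_right _ _)).trans hTT
  have hT0 : 0 < T := by linarith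
  have hlog : 0 < Real.log T := Real.log_pos (by linarith)
  have hlogQ : 16 * Real.log Q / e ≤ Real.log T := (le_max_right _ _).trans hTl
  have hlQ0 : 0 < Real.log Q := Real.log_pos (by linarith)
  set σ : ℝ := 2 * Real.pi / Real.log T with hσ
  have hσ0 : 0 < σ := by positivity
  have hβα : 0 < β - α := by linarith
  have hβ0 : 0 < β := by linarith
  set X : ℝ := T / (2 * Real.pi) * Real.log T with hX
  have hX0 : 0 < X := by positivity
  set v : ℝ := 1 - β * σ / T with hv
  have hv1 : v ≤ 1 := by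
    have : 0 ≤ β * σ / T := by positivity
    rw [hv]; linarith
  have hRX : 0 ≤ (β - α) * X := by positivity
  have hNn : (0 : ℝ) ≤ ((zetaPairs T α β).ncard : ℝ) := Nat.cast_nonneg _
  rcases le_or_gt v (e / 2) with hvs | hvb
  · -- trivial case
    have h1 : c * v - ε ≤ 0 := by
      rcases le_or_gt v 0 with h2 | h2
      · have : c * v ≤ 0 := mul_nonpos_of_nonneg_of_nonpos (by linarith) h2
        linarith
      · have : c * v ≤ 1 * v := mul_le_mul_of_nonneg_right hc1 h2.le
        linarith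
    have h2 : (c * v - ε) * (β - α) * X = (c * v - ε) * ((β - α) * X) := by ring
    rw [h2]
    exact (mul_nonpos_of_nonpos_of_nonneg h1 hRX).trans hNn
  -- the main case
  have hβT : β * σ ≤ T := by
    have h1 : β * σ / T ≤ 1 := by
      have : 0 < v := by linarith
      rw [hv] at this; linarith
    rwa [div_le_one hT0] at h1
  have hQT0 : 0 < T / Q := by positivity
  have hQT1 : T₁ ≤ T / Q := by rw [le_div_iff₀ hQ0]; exact hTT1
  have hQd : (Q : ℝ) * (Q : ℝ) ^ d ≤ T ^ d := by
    refine le_trans (le_of_eq ?_) hTd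
    rw [Real.rpow_add hQ0, Real.rpow_one]
  have hQd1 : (1 : ℝ) ≤ (Q : ℝ) ^ d := Real.one_le_rpow (by linarith) hd0.le
  have hQd2 : (Q : ℝ) ≤ T ^ d := by
    refine le_trans ?_ hQd
    exact le_mul_of_one_le_right hQ0.le hQd1
  have hshift : T ≤ (T / Q) ^ (1 + d) := by
    rw [Real.rpow_add hQT0, Real.rpow_one, Real.div_rpow hT0.le hQ0.le]
    have h1 : T / Q * (T ^ d / Q ^ d) = T * (T ^ d / (Q * Q ^ d)) := by
      have : (0 : ℝ) < Q ^ d := by positivity
      field_simp
    rw [h1]
    apply le_mul_of_one_le_right hT0.le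
    rw [one_le_div (by positivity)]
    exact hQd
  have hH1 : T ^ (1 - d) ≤ T / Q := by
    rw [Real.rpow_sub hT0, Real.rpow_one]
    exact div_le_div_of_nonneg_left hT0.le hQ0 hQd2
  -- the pieces
  set J : ℕ := ⌊(Q : ℝ) * v⌋₊ - 1 with hJ
  have hQv : 0 ≤ (Q : ℝ) * v := by
    have : 0 < v := by linarith
    positivity
  have hJQ : ∀ j : ℕ, j < J → ((j : ℝ) + 1 + 1) ≤ Q * v := by
    intro j hj
    have h1 : j + 1 + 1 ≤ ⌊(Q : ℝ) * v⌋₊ := by omega
    have h2 : ((j + 1 + 1 : ℕ) : ℝ) ≤ ⌊(Q : ℝ) * v⌋₊ := by exact_mod_cast h1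
    have h3 := Nat.floor_le hQv
    push_cast at h2
    linarith
  have hJlow : (Q : ℝ) * v - 2 ≤ J := by
    have h1 : (Q : ℝ) * v < ⌊(Q : ℝ) * v⌋₊ + 1 := Nat.lt_floor_add_one _
    have h2 : (⌊(Q : ℝ) * v⌋₊ : ℝ) - 1 ≤ J := by
      have h3 : ⌊(Q : ℝ) * v⌋₊ ≤ J + 1 := by omega
      have h4 : ((⌊(Q : ℝ) * v⌋₊ : ℕ) : ℝ) ≤ ((J + 1 : ℕ) : ℝ) := by exact_mod_cast h3
      push_cast at h4
      linarith
    linarith
  set Tj : ℕ → ℝ := fun j => ((j : ℝ) + 1) * (T / Q) with hTj
  set r : ℕ → ℝ := fun j => Real.log (Tj j) / Real.log T with hr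
  have hTj0 : ∀ j, 0 < Tj j := fun j => by simp only [hTj]; positivity
  have hTjlow : ∀ j, T / Q ≤ Tj j := fun j => by
    simp only [hTj]
    apply le_mul_of_one_le_left hQT0.le
    have : (0 : ℝ) ≤ j := Nat.cast_nonneg j
    linarith
  have hTjup : ∀ j, j < J → Tj j + T / Q ≤ T * v := by
    intro j hj
    have h1 := mul_le_mul_of_nonneg_right (hJQ j hj) hQT0.le
    have h2 : (Q : ℝ) * v * (T / Q) = T * v := by field_simp
    have h3 : ((j : ℝ) + 1 + 1) * (T / Q) = Tj j + T / Q := by simp only [hTj]; ring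
    linarith
  have hTjT : ∀ j, j < J → Tj j ≤ T := by
    intro j hj
    have h1 := hTjup j hj
    have h2 : T * v ≤ T := mul_le_of_le_one_right hT0.le hv1
    linarith
  have hrlow : ∀ j, 1 - e / 16 ≤ r j := by
    intro j
    simp only [hr]
    rw [le_div_iff₀ hlog]
    have h1 : Real.log T - Real.log Q ≤ Real.log (Tj j) := by
      rw [← Real.log_div (by linarith) (by linarith)]
      exact Real.log_le_log hQT0 (hTjlow j)
    have h2 : 16 * Real.log Q ≤ e * Real.log T := by
      rw [div_le_iff₀ he0] at hlogQ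
      linarith
    have h3 : (1 - e / 16) * Real.log T = Real.log T - 1 / 16 * (e * Real.log T) := by ring
    rw [h3]
    linarith
  have hr0 : ∀ j, 0 < r j := fun j => by have := hrlow j; linarith
  have hlTj : ∀ j, Real.log (Tj j) = r j * Real.log T := by
    intro j; simp only [hr]; field_simp
  have hlTj0 : ∀ j, 0 < Real.log (Tj j) := fun j => by
    rw [hlTj]; exact mul_pos (hr0 j) hlog
  -- one piece
  set A : ℕ → Set (ℝ × ℝ) := fun j => PP riemannZeta riemannZeta (Tj j) (T / Q) (α * r j) (β * r j)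
    with hA
  have hpiece : ∀ j, j < J → (c - e / 4) * (1 - e / 8) * ((β - α) * X) / Q ≤
      ((A j).ncard : ℝ) := by
    intro j hj
    have h1 := hT (Tj j) (hQT1.trans (hTjlow j)) (T / Q) (by
      refine le_trans ?_ hH1
      exact Real.rpow_le_rpow (hTj0 j).le (hTjT j hj) (by linarith)) (hTjlow j) (α * r j) (β * r j)
      (mul_nonneg hα (hr0 j).le) (by
        have h2 : 2 * L₀ * (1 / 2) ≤ (β - α) * r j :=
          mul_le_mul (by linarith) (by linarith [hrlow j]) (by norm_num) hβα.le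
        have h3 : (β - α) * r j = β * r j - α * r j := by ring
        linarith) (by
        have h2 : β * r j * (2 * Real.pi / Real.log (Tj j)) = β * σ := by
          rw [hlTj, hσ]
          have := hr0 j
          field_simp
        rw [h2]
        refine hβT.trans (hshift.trans ?_)
        exact Real.rpow_le_rpow hQT0.le (hTjlow j) (by linarith))
    rw [← p_eq, ← hc] at h1
    refine le_trans ?_ h1
    have h2 : (c - e / 4) * (β * r j - α * r j) * (T / Q / (2 * Real.pi) * Real.log (Tj j)) =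
        (c - e / 4) * (r j) ^ 2 * ((β - α) * X) / Q := by
      rw [hlTj, hX]; field_simp
    rw [h2]
    apply div_le_div_of_nonneg_right _ hQ0.le
    apply mul_le_mul_of_nonneg_right _ hRX
    apply mul_le_mul_of_nonneg_left _ (by norm_num at hc0; linarith)
    have h3 : 1 - e / 8 ≤ (1 - e / 16) ^ 2 := by
      have : (1 - e / 16) ^ 2 = 1 - e / 8 + (e / 16) ^ 2 := by ring
      rw [this]
      have : 0 ≤ (e / 16) ^ 2 := sq_nonneg _
      linarith
    exact h3.trans (pow_le_pow_left₀ (by linarith) (hrlow j) 2)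
  -- the union of the pieces
  have hAfac : ∀ j x y, j < J → (x, y) ∈ A j → Tj j < x ∧ x ≤ Tj j + T / Q ∧
      SimpleAt riemannZeta x ∧ SimpleAt riemannZeta y ∧ α * σ < y - x ∧ y - x < β * σ := by
    rintro j x y hj ⟨h1, h2, h3, h4, h5, h6⟩
    simp only at h1 h2 h3 h4 h5 h6
    have hTj2 : 1 < Tj j := lt_of_lt_of_le (by linarith) (hTjlow j)
    rw [← conv1 hTj2] at h5
    rw [← conv2 hTj2] at h6
    have e1 : ∀ a : ℝ, a * r j * (2 * Real.pi / Real.log (Tj j)) = a * σ := by
      intro a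
      rw [hlTj, hσ]
      have := hr0 j
      field_simp
    rw [e1] at h5 h6
    exact ⟨h1, h2, h3, h4, h5, h6⟩
  have hsum := sum_ncard_le (zetaPairs_finite T α β) A J (by
    rintro j hj ⟨x, y⟩ hxy
    obtain ⟨h1, h2, h3, h4, h5, h6⟩ := hAfac j x y hj hxy
    have h7 := hTjup j hj
    have h8 : T * v = T - β * σ := by rw [hv]; field_simp
    have h9 : 0 ≤ α * σ := by positivity
    have h10 := hTj0 j
    have h11 := mul_pos hβ0 hσ0
    refine ⟨by simp only; linarith, by simp only; linarith, by simp only; linarith,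
      by simp only; linarith, h3, h4, ?_, ?_⟩
    · exact (conv1 (by linarith)).mp h5
    · exact (conv2 (by linarith)).mp h6) (by
    intro i j hij hj
    rw [Set.disjoint_left]
    rintro ⟨x, y⟩ hx hx'
    have h1 := (hAfac i x y (hij.trans hj) hx).2.1
    have h2 := (hAfac j x y hj hx').1
    have h3 : (i : ℝ) + 1 ≤ j := by exact_mod_cast hij
    have h4 := mul_le_mul_of_nonneg_right h3 hQT0.le
    simp only [hTj] at h1 h2
    have e1 : ((i : ℝ) + 1) * (T / Q) + T / Q ≤ ((j : ℝ) + 1) * (T / Q) := by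
      have : ((j : ℝ) + 1) * (T / Q) = j * (T / Q) + T / Q := by ring
      rw [this]; linarith
    linarith)
  have hsumR : ∑ j ∈ Finset.range J, ((A j).ncard : ℝ) ≤ ((zetaPairs T α β).ncard : ℝ) := by
    exact_mod_cast hsum
  refine le_trans ?_ hsumR
  have hlow : (J : ℝ) * ((c - e / 4) * (1 - e / 8) * ((β - α) * X) / Q) ≤
      ∑ j ∈ Finset.range J, ((A j).ncard : ℝ) := by
    rw [← nsmul_eq_mul, ← Finset.card_range J, ← Finset.sum_const, Finset.card_range]
    exact Finset.sum_le_sum fun j hj => hpiece j (Finset.mem_range.mp hj)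
  refine le_trans ?_ hlow
  have hc4 : 0 ≤ c - e / 4 := by norm_num at hc0; linarith
  have h1 : (J : ℝ) * ((c - e / 4) * (1 - e / 8) * ((β - α) * X) / Q) =
      ((J : ℝ) / Q) * ((c - e / 4) * (1 - e / 8)) * ((β - α) * X) := by ring
  have h2 : (c * v - ε) * (β - α) * X = (c * v - ε) * ((β - α) * X) := by ring
  rw [h1, h2]
  apply mul_le_mul_of_nonneg_right _ hRX
  have h3 : v - e / 4 ≤ (J : ℝ) / Q := by
    have h4 : ((Q : ℝ) * v - 2) / Q ≤ J / Q := div_le_div_of_nonneg_right hJlow hQ0.le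
    have h5 : ((Q : ℝ) * v - 2) / Q = v - 2 / Q := by field_simp
    rw [h5] at h4
    linarith
  have h4 : (v - e / 4) * ((c - e / 4) * (1 - e / 8)) ≤
      ((J : ℝ) / Q) * ((c - e / 4) * (1 - e / 8)) :=
    mul_le_mul_of_nonneg_right h3 (mul_nonneg hc4 (by linarith))
  refine le_trans ?_ h4
  have h5 : c - 3 / 8 * e ≤ (c - e / 4) * (1 - e / 8) := by
    have : (c - e / 4) * (1 - e / 8) = c - e / 4 - c * e / 8 + e * e / 32 := by ring
    rw [this]
    have h6 : c * e ≤ 1 * e := mul_le_mul_of_nonneg_right hc1 he0.le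
    have h7 : 0 ≤ e * e := by positivity
    linarith
  have h6 : (v - e / 4) * (c - 3 / 8 * e) ≤ (v - e / 4) * ((c - e / 4) * (1 - e / 8)) :=
    mul_le_mul_of_nonneg_left h5 (by linarith)
  refine le_trans ?_ h6
  have h7 : (v - e / 4) * (c - 3 / 8 * e) = c * v - 3 / 8 * (e * v) - c * e / 4 + 3 / 32 * (e * e) := by
    ring
  rw [h7]
  have h8 : e * v ≤ e * 1 := mul_le_mul_of_nonneg_left hv1 he0.le
  have h9 : c * e ≤ 1 * e := mul_le_mul_of_nonneg_right hc1 he0.le
  have h10 : 0 ≤ e * e := by positivity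
  linarith

theorem result :
    -- long windows, two L-functions
    (∀ ε : ℝ, 0 < ε → ∃ L δ : ℝ, 0 < L ∧ 0 < δ ∧ δ < 1 ∧
      ∀ (q q' : ℕ) [NeZero q] [NeZero q'] (χ : DirichletCharacter ℂ q)
        (χ' : DirichletCharacter ℂ q'), χ.IsPrimitive → χ'.IsPrimitive →
      ∃ T₀ : ℝ, ∀ T : ℝ, T₀ ≤ T → ∀ H : ℝ, T ^ (1 - δ) ≤ H → H ≤ T → ∀ α β : ℝ, 0 ≤ α →
        α + L ≤ β → β * (2 * Real.pi / Real.log T) ≤ T ^ (1 + δ) →
        (2 * p - 1 - ε) * (β - α) * (H / (2 * Real.pi) * Real.log T) ≤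
          ((pairs (DirichletCharacter.LFunction χ) (DirichletCharacter.LFunction χ')
            T H α β).ncard : ℝ)) ∧
    -- short windows, two L-functions
    (∃ δ : ℝ, 0 < δ ∧ δ < 1 ∧
      ∀ (q q' : ℕ) [NeZero q] [NeZero q'] (χ : DirichletCharacter ℂ q)
        (χ' : DirichletCharacter ℂ q'), χ.IsPrimitive → χ'.IsPrimitive →
      ∃ T₀ : ℝ, ∀ T : ℝ, T₀ ≤ T → ∀ H : ℝ, T ^ (1 - δ) ≤ H → H ≤ T → ∀ α β : ℝ, 0 ≤ α →
        β * (2 * Real.pi / Real.log T) ≤ T ^ (1 + δ) →
        (7 / 5 ≤ β - α → (β - α) / 1100 * (H / (2 * Real.pi) * Real.log T) ≤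
          ((pairs (DirichletCharacter.LFunction χ) (DirichletCharacter.LFunction χ')
            T H α β).ncard : ℝ)) ∧
        (2 ≤ β - α → (β - α) / 15 * (H / (2 * Real.pi) * Real.log T) ≤
          ((pairs (DirichletCharacter.LFunction χ) (DirichletCharacter.LFunction χ')
            T H α β).ncard : ℝ))) ∧
    -- zeta, the pairs with ordinates up to `T`
    (∀ ε : ℝ, 0 < ε → ∃ L T₀ : ℝ, 0 < L ∧ ∀ T : ℝ, T₀ ≤ T → ∀ α β : ℝ, 0 ≤ α → α + L ≤ β →
      ((2 * p - 1) * (1 - β * (2 * Real.pi / Real.log T) / T) - ε) * (β - α) *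
        (T / (2 * Real.pi) * Real.log T) ≤ ((zetaPairs T α β).ncard : ℝ)) ∧
    0.344994 ≤ 2 * p - 1 := by
  have hpn := p_num
  refine ⟨fun ε hε => ?_, ?_, fun ε hε => whole hε, ?_⟩
  · obtain ⟨L, hL, d, hd0, hd1, h⟩ := long_windows hε
    refine ⟨L, d, hL, hd0, hd1, fun q q' _ _ χ χ' hχ hχ' => ?_⟩
    obtain ⟨T0, -, hT⟩ := h _ _ (H370.good_dirichlet χ hχ) (H370.good_dirichlet χ' hχ')
    refine ⟨T0, fun T hTT H hH hHT α β hα hαβ hβ => ?_⟩
    rw [p_eq]
    exact hT T hTT H hH hHT α β hα hαβ hβ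
  · obtain ⟨d1, hd10, hd11, h1⟩ := short_windows Pool.Agent.W201.tier1
    obtain ⟨d2, hd20, hd21, h2⟩ := short_windows Pool.Agent.W201.tier2
    refine ⟨min d1 d2, lt_min hd10 hd20, lt_of_le_of_lt (min_le_left _ _) hd11,
      fun q q' _ _ χ χ' hχ hχ' => ?_⟩
    obtain ⟨T1, hT1, hT1'⟩ := h1 _ _ (H370.good_dirichlet χ hχ) (H370.good_dirichlet χ' hχ')
    obtain ⟨T2, hT2, hT2'⟩ := h2 _ _ (H370.good_dirichlet χ hχ) (H370.good_dirichlet χ' hχ')
    refine ⟨max T1 T2, fun T hTT H hH hHT α β hα hβ => ?_⟩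
    have hTT1 : T1 ≤ T := (le_max_left _ _).trans hTT
    have hTT2 : T2 ≤ T := (le_max_right _ _).trans hTT
    have hT10 : 10 ≤ T := hT1.trans hTT1
    have hpi := Real.pi_pos
    have hlog : 0 < Real.log T := Real.log_pos (by linarith)
    have hH0 : 0 ≤ H := (Real.rpow_nonneg (by linarith) _).trans hH
    have hM0 : 0 ≤ H / (2 * Real.pi) * Real.log T := by positivity
    have hm1 : min d1 d2 ≤ d1 := min_le_left _ _
    have hm2 : min d1 d2 ≤ d2 := min_le_right _ _
    have hH1 : T ^ (1 - d1) ≤ H :=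
      (Real.rpow_le_rpow_of_exponent_le (by linarith) (by linarith)).trans hH
    have hH2 : T ^ (1 - d2) ≤ H :=
      (Real.rpow_le_rpow_of_exponent_le (by linarith) (by linarith)).trans hH
    have hB1 : β * (2 * Real.pi / Real.log T) ≤ T ^ (1 + d1) :=
      hβ.trans (Real.rpow_le_rpow_of_exponent_le (by linarith) (by linarith))
    have hB2 : β * (2 * Real.pi / Real.log T) ≤ T ^ (1 + d2) :=
      hβ.trans (Real.rpow_le_rpow_of_exponent_le (by linarith) (by linarith))
    constructor
    · intro h75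
      refine le_trans ?_ (hT1' T hTT1 H hH1 hHT α β hα (by norm_num at h75 ⊢; linarith) hB1)
      apply mul_le_mul_of_nonneg_right _ hM0
      have : (β - α) / 1100 = 1 / 1100 * (β - α) := by ring
      rw [this]
      apply mul_le_mul_of_nonneg_right _ (by linarith)
      norm_num
    · intro h2'
      refine le_trans ?_ (hT2' T hTT2 H hH2 hHT α β hα (by norm_num at h2' ⊢; linarith) hB2)
      apply mul_le_mul_of_nonneg_right _ hM0
      have : (β - α) / 15 = 1 / 15 * (β - α) := by ring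
      rw [this]
      apply mul_le_mul_of_nonneg_right _ (by linarith)
      norm_num
  · norm_num at hpn ⊢
    linarith

end Pool.Agent.Results.MP_8958e8_nt.AnyTwoLFunctions
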