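import Pool.Agent.TH800.MS.LlnP

/-!
# Pair correlation in almost all windows of `M` mean spacings, under the Riemann hypothesis

Let `r` be a kernel with Fourier transform `ψ(|α|)` on `[-λ, λ]`, `λ < 1/2`, and `0` elsewhere.
The local sum `P` of `r` over the pairs of ordinates near `t`, with a window of `M` mean spacings,
is equal to the value `(2M/3) (ψ(0) + ∫ |α| ψ(|α|) dα)` predicted by the pair correlation
conjecture, with variance `O(M + M⁴/(log T)²)` when `t` runs over `[T, 2T]`, uniformly for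
`M₀ ≤ M ≤ log T`.

Idea of the proof (`Pool.Agent.TH800.MS`).  The explicit formula gives, for `0 ≤ u ≤ λ log T`, the
local sum `∑ w(γ - t) exp(iu(γ - t))` as a peak at `u = 0` minus a short sum over primes plus a
bounded error.  The integral over `u` of the square of the prime sum is a quadratic form in the
prime numbers up to `T^μ`, `μ < 1/2`, and its variance is computed with a mean value theorem.
-/

open MeasureTheory

namespace Pool.Agent.Results.MP_8958e8_nt.MicroscopicPairCorrelation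

/-- the nontrivial zeros of `ζ` with ordinate in `(T, 2T]` -/
def Z (T : ℝ) : Set ℂ := {s | 0 < s.re ∧ s.re < 1 ∧ T < s.im ∧ s.im ≤ 2 * T ∧ riemannZeta s = 0}

/-- multiplicity of `s` as a zero of the Riemann zeta function (order of vanishing at `s`) -/
noncomputable def mult (s : ℂ) : ℕ := analyticOrderNatAt riemannZeta s

/-- the window `exp(-x²/2) (sin y / y)²`, `y = x log T / (2M)`, of about `M` mean spacings -/
noncomputable def w (T M x : ℝ) : ℝ :=
  Real.exp (-x ^ 2 / 2) * Real.sinc (Real.log T / M * x / 2) ^ 2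

/-- the kernel `r(x) = 2 ∫_0^λ ψ(α) cos(2παx) dα`, with Fourier transform `ψ(|α|)` on `[-λ, λ]` -/
noncomputable def ker (ψ : ℝ → ℝ) (lam x : ℝ) : ℝ :=
  2 * ∫ α in (0 : ℝ)..lam, ψ α * Real.cos (2 * Real.pi * α * x)

/-- the sum of `w(γ - t) w(γ' - t) r((γ - γ') log T / 2π)` over the pairs of zeros in `(T, 2T]`,
counted with multiplicity -/
noncomputable def P (r : ℝ → ℝ) (T M t : ℝ) : ℝ :=
  ∑ᶠ s ∈ Z T, ∑ᶠ s' ∈ Z T, (mult s : ℝ) * (mult s' : ℝ) * w T M (s.im - t) * w T M (s'.im - t) *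
    r ((s.im - s'.im) * Real.log T / (2 * Real.pi))

/-- the predicted value -/
noncomputable def E (ψ : ℝ → ℝ) (lam M : ℝ) : ℝ :=
  2 * M / 3 * (ψ 0 + 2 * ∫ α in (0 : ℝ)..lam, α * ψ α)

lemma P_eq {T : ℝ} (hT : 1 ≤ T) (M t : ℝ) (r : ℝ → ℝ) :
    P r T M t = Pool.Agent.TH800.MS.PS T (Real.log T / M) t
      (fun d => r (d * Real.log T / (2 * Real.pi))) := by
  have hZ : Z T = H370.zset riemannZeta T (2 * T) := rfl
  unfold P Pool.Agent.TH800.MS.PS
  rw [hZ, H370.finsum_Zf H370.good_zeta hT]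
  refine Finset.sum_congr rfl fun s _ => ?_
  rw [H370.finsum_Zf H370.good_zeta hT]
  rfl

lemma cheb {f : ℝ → ℝ} (hf : Continuous f) (hf0 : ∀ t, 0 ≤ f t) {a b δ A : ℝ} (hab : a ≤ b)
    (hδ : 0 < δ) (hA : ∫ t in a..b, f t ≤ A) :
    volume {t : ℝ | t ∈ Set.Icc a b ∧ δ ≤ f t} ≤ ENNReal.ofReal (A / δ) := by
  have hi : IntegrableOn f (Set.Icc a b) := hf.continuousOn.integrableOn_compact isCompact_Icc
  have h1 := mul_meas_ge_le_integral_of_nonneg (μ := volume.restrict (Set.Icc a b))
    (Filter.Eventually.of_forall hf0) hi δ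
  have hm : MeasurableSet {t : ℝ | δ ≤ f t} := measurableSet_le measurable_const hf.measurable
  have h2 : volume {t : ℝ | t ∈ Set.Icc a b ∧ δ ≤ f t} =
      (volume.restrict (Set.Icc a b)) {t : ℝ | δ ≤ f t} := by
    rw [Measure.restrict_apply hm]
    congr 1
    ext t
    simp only [Set.mem_inter_iff, Set.mem_ofPred_eq]
    tauto
  have h3 : ∫ t in Set.Icc a b, f t ≤ A := by
    rw [integral_Icc_eq_integral_Ioc, ← intervalIntegral.integral_of_le hab]
    exact hA
  have hfin : (volume.restrict (Set.Icc a b)) {t : ℝ | δ ≤ f t} ≠ ⊤ := by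
    refine ne_top_of_le_ne_top ?_ (measure_mono (Set.subset_univ _))
    rw [Measure.restrict_apply_univ]
    exact isCompact_Icc.measure_lt_top.ne
  rw [h2, ← ENNReal.ofReal_toReal hfin]
  apply ENNReal.ofReal_le_ofReal
  rw [le_div_iff₀ hδ]
  have h4 : (volume.restrict (Set.Icc a b)).real {t : ℝ | δ ≤ f t} =
      ((volume.restrict (Set.Icc a b)) {t : ℝ | δ ≤ f t}).toReal := rfl
  rw [h4] at h1
  linarith

/-- On the Riemann hypothesis, let `0 < λ < 1/2`.  There are constants `C`, `M₀`, `T₀` such that for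
`T ≥ T₀`, `M₀ ≤ M ≤ log T` and all kernels `r = ker ψ λ`, where `ψ` is continuously differentiable
with `|ψ|, |ψ'| ≤ B` on `[0, λ]`: (1) the mean square over `[T + log T, 2T - log T]` of the
difference of the local pair sum `P` and its predicted value `E` is at most
`C B² (M + M⁴/(log T)²)`; (2) if `M³ ≤ (log T)²` then for every `ε > 0` one has `|P - E| < ε M`
for all `t` in this interval outside a set of measure at most `C B² T / (ε² M)`. -/
theorem result (RH : RiemannHypothesis) (lam : ℝ) (h0 : 0 < lam) (h1 : lam < 1 / 2) :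
    ∃ C M0 T0 : ℝ, ∀ T : ℝ, T0 ≤ T → ∀ M : ℝ, M0 ≤ M → M ≤ Real.log T →
      ∀ (ψ ψ' : ℝ → ℝ) (B : ℝ), (∀ α, HasDerivAt ψ (ψ' α) α) → Continuous ψ' →
      (∀ α, 0 ≤ α → α ≤ lam → |ψ α| ≤ B ∧ |ψ' α| ≤ B) →
      (∫ t in (T + Real.log T)..(2 * T - Real.log T), (P (ker ψ lam) T M t - E ψ lam M) ^ 2 ≤
        C * B ^ 2 * (M + M ^ 4 / Real.log T ^ 2) * T) ∧
      (M ^ 3 ≤ Real.log T ^ 2 → ∀ ε : ℝ, 0 < ε →
        volume {t : ℝ | t ∈ Set.Icc (T + Real.log T) (2 * T - Real.log T) ∧
          ε * M ≤ |P (ker ψ lam) T M t - E ψ lam M|} ≤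
            ENNReal.ofReal (C * B ^ 2 * T / (ε ^ 2 * M))) := by
  have hRHs : SP.RHs := by
    intro s h1 h2 h0
    apply RH s h0
    · rintro ⟨k, hk⟩
      have := congrArg Complex.re hk
      simp at this
      have hk0 : (0 : ℝ) ≤ k := Nat.cast_nonneg k
      linarith
    · intro h; rw [h] at h2; simp at h2
  obtain ⟨C, M0, T0, hC, hM0, hT0, h⟩ := Pool.Agent.TH800.MS.lln_pairs hRHs lam h0 h1
  refine ⟨2 * C, M0, T0, fun T hT M hM hML ψ ψ' B hψ hψ' hB => ?_⟩
  have hT10 : 10 ≤ T := hT0.trans hT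
  have hM1 : 1 ≤ M := hM0.trans hM
  have hMpos : 0 < M := by linarith
  have hL0 : 0 < Real.log T := Real.log_pos (by linarith)
  have hlogT : Real.log T ≤ T / 2 := by
    have h3 := Real.log_le_sub_one_of_pos (show 0 < T / 4 by positivity)
    rw [Real.log_div (by linarith) (by norm_num)] at h3
    have h4 : Real.log 4 ≤ 2 := by
      have : Real.log 4 = 2 * Real.log 2 := by
        rw [show (4 : ℝ) = 2 ^ 2 by norm_num, Real.log_pow]; norm_num
      have := Real.log_two_lt_d9
      linarith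
    linarith
  have h5 := h T hT M hM hML ψ ψ' B hψ hψ' hB
  have hPeq : ∀ t, P (ker ψ lam) T M t = Pool.Agent.TH800.MS.PS T (Real.log T / M) t
      (fun d => Pool.Agent.TH800.MS.kerψ ψ lam (d * Real.log T / (2 * Real.pi))) := fun t =>
    P_eq (by linarith) M t _
  have h6 : ∫ t in (T + Real.log T)..(2 * T - Real.log T), (P (ker ψ lam) T M t - E ψ lam M) ^ 2 ≤
        C * B ^ 2 * (M + M ^ 4 / Real.log T ^ 2) * T := by
    simp_rw [hPeq]
    exact h5
  refine ⟨h6.trans ?_, fun hM3 ε hε => ?_⟩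
  · have : 0 ≤ B ^ 2 * (M + M ^ 4 / Real.log T ^ 2) * T := by positivity
    nlinarith
  · have hcont : Continuous fun t => (P (ker ψ lam) T M t - E ψ lam M) ^ 2 := by
      simp_rw [hPeq]
      refine (Continuous.sub ?_ continuous_const).pow 2
      unfold Pool.Agent.TH800.MS.PS
      refine continuous_finsetSum _ fun s _ => continuous_finsetSum _ fun s' _ => ?_
      exact ((continuous_const.mul ((Pool.Agent.TH800.MS.Om_cont _).comp (by fun_prop))).mul
        ((Pool.Agent.TH800.MS.Om_cont _).comp (by fun_prop))).mul continuous_const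
    have h7 := cheb hcont (fun t => sq_nonneg _)
      (show T + Real.log T ≤ 2 * T - Real.log T by linarith)
      (show 0 < (ε * M) ^ 2 by positivity) h6
    refine le_trans (le_of_eq ?_) (h7.trans (ENNReal.ofReal_le_ofReal ?_))
    · congr 1
      ext t
      simp only [Set.mem_ofPred_eq]
      rw [← sq_abs (P (ker ψ lam) T M t - E ψ lam M), sq_le_sq₀ (by positivity) (abs_nonneg _)]
    · have h8 : M ^ 4 / Real.log T ^ 2 ≤ M := by
        rw [div_le_iff₀ (by positivity)]
        calc M ^ 4 = M * M ^ 3 := by ring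
          _ ≤ M * Real.log T ^ 2 := by gcongr
      calc C * B ^ 2 * (M + M ^ 4 / Real.log T ^ 2) * T / (ε * M) ^ 2 ≤
          C * B ^ 2 * (M + M) * T / (ε * M) ^ 2 := by gcongr
        _ = 2 * C * B ^ 2 * T / (ε ^ 2 * M) := by field_simp; ring

end Pool.Agent.Results.MP_8958e8_nt.MicroscopicPairCorrelation
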