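import Pool.Agent.TH300.ZS.Full
import Pool.Agent.TH300.ZS.Fin

/-!
# Popular differences of the zeros, unconditionally

No hypothesis is assumed.  Among any `m ≥ 2` real numbers `0 ≤ a_i ≤ κ T log T` there are two, at
distance `s`, such that a positive proportion of the pairs of ordinates of zeta in `(0, T]` have a
difference within `3 / (2m)` mean spacings of `s`.  (So the differences `s` with this property meet
every difference set of `m` numbers; for every `s` one of the multiples `k s`, `1 ≤ k < m`, has it.)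
This holds already for the simple zeros on the critical line, and it is deduced from an inequality
for the sum over all the pairs `i < j`, which is proved for all primitive Dirichlet L-functions
and for the intervals `(T, T + H]`, `T ^ h ≤ H ≤ T`.

Idea of the proof.  Let `x_1 < x_2 < …` be the simple critical ordinates and let `σ` be the mean
spacing.  The trace inequality with the Montgomery-Taylor kernel `φ` and a tridiagonal test matrix
gives `(2 - c) N ≤ ∑ e(x_{i+1} - x_i)` with `e(g) = 1 - 4 t φ(g) + 2 t² ≤ min (g / (r σ), 1)`, for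
a suitable `|t| ≤ 1/2` chosen for every gap, as long as `r ≤ 9/10`.  Hence the union `U` of the
intervals of length `r σ` centred at the points has measure at least `(2 - c) r` times the length
of the interval.  The `m` translates `U + a_i σ` overlap, by how much is bounded below by a
convexity inequality, and `|(U + a_i σ) ∩ (U + a_j σ)|` is at most the sum of the overlaps of the
small intervals.
-/

open Filter Topology Complex MeasureTheory

namespace Pool.Agent.Results.MP_8958e8_nt.PopularDifferences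

/-- the nontrivial zeros of `F` with ordinate in `(T₁, T₂]` -/
def zeros (F : ℂ → ℂ) (T₁ T₂ : ℝ) : Set ℂ :=
  {s : ℂ | F s = 0 ∧ 0 < s.re ∧ s.re < 1 ∧ T₁ < s.im ∧ s.im ≤ T₂}

/-- the multiplicity of a zero -/
noncomputable def mult (F : ℂ → ℂ) (s : ℂ) : ℕ := analyticOrderNatAt F s

/-- the number of ordered pairs of zeros in `zeros F T₁ T₂`, counted with multiplicity, with
difference of the ordinates times `log τ / 2π` in `[α, β]` -/
noncomputable def N (F : ℂ → ℂ) (τ T₁ T₂ α β : ℝ) : ℕ :=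
  ∑ᶠ s ∈ zeros F T₁ T₂, ∑ᶠ s' ∈ {s' : ℂ | s' ∈ zeros F T₁ T₂ ∧
    α ≤ (s.im - s'.im) * Real.log τ / (2 * Real.pi) ∧
    (s.im - s'.im) * Real.log τ / (2 * Real.pi) ≤ β}, mult F s * mult F s'

/-- `x` is the ordinate in `(T₁, T₂]` of a simple zero of `F` on the critical line -/
def IsSimpleOrd (F : ℂ → ℂ) (T₁ T₂ x : ℝ) : Prop :=
  (1 / 2 + x * I : ℂ) ∈ zeros F T₁ T₂ ∧ mult F (1 / 2 + x * I : ℂ) = 1

/-- the number of ordered pairs `(x, y)` of ordinates in `(T₁, T₂]` of simple zeros of `F` on the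
critical line with `(x - y) * log τ / 2π` in the open interval `(α, β)` -/
noncomputable def Nsimple (F : ℂ → ℂ) (τ T₁ T₂ α β : ℝ) : ℕ :=
  {p : ℝ × ℝ | IsSimpleOrd F T₁ T₂ p.1 ∧ IsSimpleOrd F T₁ T₂ p.2 ∧
    α < (p.1 - p.2) * Real.log τ / (2 * Real.pi) ∧
    (p.1 - p.2) * Real.log τ / (2 * Real.pi) < β}.ncard

/-- the sum of the weights `max (0, 1 - |u - s| / r)`, `u = (x - y) * log τ / 2π`, over the ordered
pairs `(x, y)` of ordinates in `(T₁, T₂]` of simple zeros of `F` on the critical line -/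
noncomputable def W (F : ℂ → ℂ) (τ T₁ T₂ r s : ℝ) : ℝ :=
  ∑ᶠ p ∈ {p : ℝ × ℝ | IsSimpleOrd F T₁ T₂ p.1 ∧ IsSimpleOrd F T₁ T₂ p.2},
    max 0 (1 - |(p.1 - p.2) * Real.log τ / (2 * Real.pi) - s| / r)

/-- the Montgomery-Taylor constant -/
noncomputable def cMT : ℝ :=
  Real.sqrt 2 * Real.tan (1 / Real.sqrt 2) / (1 + Real.tan (1 / Real.sqrt 2) / Real.sqrt 2)

/-- the mean square of the Montgomery-Taylor window, `1.0062...` -/
noncomputable def R0 : ℝ :=
  (1 + Real.sin (Real.sqrt 2) / Real.sqrt 2) / (4 * Real.sin (1 / Real.sqrt 2) ^ 2)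

/-- the constant for intervals of length `T^h`; `c 1 = cMT⁻¹ = 1.3274...` -/
noncomputable def c (h : ℝ) : ℝ := R0 / h + h * (cMT⁻¹ - R0)

lemma zeros_eq (F : ℂ → ℂ) (T₁ T₂ : ℝ) : zeros F T₁ T₂ = H370.zset F T₁ T₂ := by
  ext s
  simp only [zeros, H370.zset, Set.mem_ofPred_eq]
  tauto

/-- modulus `1`: the Riemann zeta function -/
theorem zeta_case (χ : DirichletCharacter ℂ 1) :
    χ.IsPrimitive ∧ DirichletCharacter.LFunction χ = riemannZeta := by
  refine ⟨?_, DirichletCharacter.LFunction_modOne_eq⟩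
  rw [DirichletCharacter.level_one' χ rfl]
  exact DirichletCharacter.isPrimitive_one_level_one

/-- the sets of zeros of zeta are finite -/
theorem zeros_finite_zeta (T : ℝ) : (zeros riemannZeta 0 T).Finite := by
  rw [zeros_eq]
  exact H370.zeta_zeros_finite T

/-- the sets of zeros of the L-functions are finite -/
theorem zeros_finite {q : ℕ} [NeZero q] (χ : DirichletCharacter ℂ q) (hχ : χ.IsPrimitive)
    (T₁ T₂ : ℝ) (hT : 1 ≤ T₁) : (zeros (DirichletCharacter.LFunction χ) T₁ T₂).Finite := by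
  rw [zeros_eq]
  exact H370.zset_finite (H370.good_dirichlet χ hχ) T₁ T₂ hT

theorem cMT_inv : cMT⁻¹ = H370.cMTinv := H370.cMTinv_eq

theorem c_eq {h : ℝ} (hh : 0 < h) : c h = H295Iso.c0 h := by
  have h1 : cMT⁻¹ = H370.cMTinv := H370.cMTinv_eq
  have h2 := H228SI.constS 1 one_pos le_rfl
  have h4 : Real.sqrt 2 / 2 = 1 / Real.sqrt 2 := by
    rw [div_eq_div_iff (by norm_num) (by positivity), Real.mul_self_sqrt (by norm_num), one_mul]
  have h3 : H295SI.RS (Real.sqrt 2) 0 = R0 := by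
    unfold H295SI.RS R0
    have hs : Real.sqrt 2 ^ 2 = 2 := Real.sq_sqrt (by norm_num)
    rw [if_pos (by norm_num), hs, h4]
    simp only [abs_zero, sub_zero, mul_zero, Real.cos_zero, mul_one]
    ring
  have h5 : H295SI.cc 1 = H370.cMTinv := by
    unfold H295SI.cc H370.cMTinv
    rfl
  rw [mul_one, h5] at h2
  unfold c H295Iso.c0 H295SI.cR
  unfold H295SI.cR at h2
  rw [h3] at h2 ⊢
  rw [h1, ← h2]
  ring

lemma c_nonneg {h : ℝ} (hh : 0 < h) (hh1 : h ≤ 1) : 0 ≤ c h := by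
  have h1 : cMT⁻¹ = H370.cMTinv := H370.cMTinv_eq
  have h2 := H344.cMTinv_ge
  have hs : 0 ≤ Real.sin (Real.sqrt 2) := by
    apply Real.sin_nonneg_of_nonneg_of_le_pi (Real.sqrt_nonneg _)
    have : Real.sqrt 2 ≤ 2 := by
      rw [Real.sqrt_le_left (by norm_num)]; norm_num
    linarith [Real.pi_gt_three]
  have hR : 0 ≤ R0 := by unfold R0; positivity
  have e : c h = R0 * (1 / h - h) + h * cMT⁻¹ := by unfold c; ring
  rw [e, h1]
  have h3 : h ≤ 1 / h := by
    rw [le_div_iff₀ hh]; nlinarith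
  have h4 : 0 ≤ R0 * (1 / h - h) := mul_nonneg hR (by linarith)
  have h5 : 0 ≤ h * H370.cMTinv := mul_nonneg hh.le (by linarith)
  linarith

lemma ord_finite {F : ℂ → ℂ} {T₁ T₂ : ℝ} (hfin : (zeros F T₁ T₂).Finite) :
    {x : ℝ | IsSimpleOrd F T₁ T₂ x}.Finite := by
  refine Set.Finite.of_finite_image (f := fun x : ℝ => (1 / 2 + x * I : ℂ))
    (hfin.subset ?_) ?_
  · rintro s ⟨x, hx, rfl⟩
    exact hx.1
  · intro x _ y _ hxy
    have := congrArg Complex.im hxy
    simpa using this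

lemma pairs_finite {F : ℂ → ℂ} {T₁ T₂ : ℝ} (hfin : (zeros F T₁ T₂).Finite) (τ α β : ℝ) :
    {p : ℝ × ℝ | IsSimpleOrd F T₁ T₂ p.1 ∧ IsSimpleOrd F T₁ T₂ p.2 ∧
      α < (p.1 - p.2) * Real.log τ / (2 * Real.pi) ∧
      (p.1 - p.2) * Real.log τ / (2 * Real.pi) < β}.Finite :=
  ((ord_finite hfin).prod (ord_finite hfin)).subset fun _ hp => ⟨hp.1, hp.2.1⟩

/-- the pairs of simple critical zeros are among all the pairs -/
lemma Nsimple_le {F : ℂ → ℂ} {T₁ T₂ : ℝ} (hfin : (zeros F T₁ T₂).Finite) (τ α β : ℝ) :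
    Nsimple F τ T₁ T₂ α β ≤ N F τ T₁ T₂ α β := by
  classical
  set Z := hfin.toFinset with hZ
  set w : ℂ → ℂ → Prop := fun s s' => α ≤ (s.im - s'.im) * Real.log τ / (2 * Real.pi) ∧
      (s.im - s'.im) * Real.log τ / (2 * Real.pi) ≤ β with hw
  have hN : N F τ T₁ T₂ α β = ∑ s ∈ Z, ∑ s' ∈ Z.filter (fun s' => w s s'),
      mult F s * mult F s' := by
    unfold N
    rw [finsum_mem_eq_finite_toFinset_sum _ hfin]
    refine Finset.sum_congr rfl fun s _ => ?_
    have hfin' : {s' : ℂ | s' ∈ zeros F T₁ T₂ ∧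
        α ≤ (s.im - s'.im) * Real.log τ / (2 * Real.pi) ∧
        (s.im - s'.im) * Real.log τ / (2 * Real.pi) ≤ β}.Finite := hfin.subset fun _ h => h.1
    rw [finsum_mem_eq_finite_toFinset_sum _ hfin']
    refine Finset.sum_congr ?_ fun _ _ => rfl
    ext s'
    rw [Set.Finite.mem_toFinset, Finset.mem_filter, hZ, Set.Finite.mem_toFinset]
    rfl
  have hN2 : N F τ T₁ T₂ α β =
      ∑ p ∈ (Z ×ˢ Z).filter (fun p : ℂ × ℂ => w p.1 p.2), mult F p.1 * mult F p.2 := by
    rw [hN, Finset.sum_filter, Finset.sum_product]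
    refine Finset.sum_congr rfl fun s _ => ?_
    rw [Finset.sum_filter]
  rw [hN2]
  have hP := pairs_finite hfin τ α β
  unfold Nsimple
  rw [Set.ncard_eq_toFinset_card _ hP]
  set g : ℝ × ℝ → ℂ × ℂ := fun p => (1 / 2 + p.1 * I, 1 / 2 + p.2 * I) with hg
  have him : ∀ x : ℝ, (1 / 2 + (x : ℂ) * I).im = x := by intro x; simp
  have hinj : Function.Injective g := by
    intro p p' h
    have h1 := congrArg (fun z : ℂ × ℂ => z.1.im) h
    have h2 := congrArg (fun z : ℂ × ℂ => z.2.im) h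
    simp only [hg, him] at h1 h2
    exact Prod.ext h1 h2
  rw [← Finset.card_image_of_injective _ hinj, Finset.card_eq_sum_ones]
  have hsub : hP.toFinset.image g ⊆ (Z ×ˢ Z).filter (fun p : ℂ × ℂ => w p.1 p.2) := by
    intro z hz
    obtain ⟨p, hp, rfl⟩ := Finset.mem_image.mp hz
    rw [Set.Finite.mem_toFinset] at hp
    obtain ⟨h1, h2, h3, h4⟩ := hp
    rw [Finset.mem_filter, Finset.mem_product, hZ, Set.Finite.mem_toFinset,
      Set.Finite.mem_toFinset]
    refine ⟨⟨h1.1, h2.1⟩, ?_⟩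
    simp only [hw, hg, him]
    exact ⟨h3.le, h4.le⟩
  refine (Finset.sum_le_sum fun z hz => ?_).trans (Finset.sum_le_sum_of_subset hsub)
  obtain ⟨p, hp, rfl⟩ := Finset.mem_image.mp hz
  rw [Set.Finite.mem_toFinset] at hp
  simp only [hg]
  rw [hp.1.2, hp.2.1.2]

lemma W_eq {F : ℂ → ℂ} {T₁ T₂ : ℝ} (hfin : (zeros F T₁ T₂).Finite) (τ r s : ℝ) :
    W F τ T₁ T₂ r s = ∑ p ∈ (ord_finite hfin).toFinset ×ˢ (ord_finite hfin).toFinset,
      max 0 (1 - |(p.1 - p.2) * Real.log τ / (2 * Real.pi) - s| / r) := by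
  unfold W
  have hf : {p : ℝ × ℝ | IsSimpleOrd F T₁ T₂ p.1 ∧ IsSimpleOrd F T₁ T₂ p.2}.Finite :=
    ((ord_finite hfin).prod (ord_finite hfin)).subset fun _ hp => ⟨hp.1, hp.2⟩
  rw [finsum_mem_eq_finite_toFinset_sum _ hf]
  refine Finset.sum_congr ?_ fun _ _ => rfl
  ext p
  rw [Set.Finite.mem_toFinset, Finset.mem_product, Set.Finite.mem_toFinset,
    Set.Finite.mem_toFinset]
  rfl

lemma W_nonneg {F : ℂ → ℂ} {T₁ T₂ : ℝ} (hfin : (zeros F T₁ T₂).Finite) (τ r s : ℝ) :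
    0 ≤ W F τ T₁ T₂ r s := by
  rw [W_eq hfin]
  exact Finset.sum_nonneg fun _ _ => le_max_left _ _

/-- the weights are at most the indicator function of the window -/
lemma W_le {F : ℂ → ℂ} {T₁ T₂ : ℝ} (hfin : (zeros F T₁ T₂).Finite) (τ : ℝ) {r : ℝ} (hr : 0 < r)
    (s : ℝ) : W F τ T₁ T₂ r s ≤ Nsimple F τ T₁ T₂ (s - r) (s + r) := by
  classical
  rw [W_eq hfin]
  have hP := pairs_finite hfin τ (s - r) (s + r)
  unfold Nsimple
  rw [Set.ncard_eq_toFinset_card _ hP]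
  have h1 : ∀ p : ℝ × ℝ, max 0 (1 - |(p.1 - p.2) * Real.log τ / (2 * Real.pi) - s| / r) ≤
      if (s - r < (p.1 - p.2) * Real.log τ / (2 * Real.pi) ∧
        (p.1 - p.2) * Real.log τ / (2 * Real.pi) < s + r) then (1 : ℝ) else 0 := by
    intro p
    split_ifs with h
    · apply max_le zero_le_one
      have : 0 ≤ |(p.1 - p.2) * Real.log τ / (2 * Real.pi) - s| / r := by positivity
      linarith
    · apply max_le le_rfl
      have h2 : r ≤ |(p.1 - p.2) * Real.log τ / (2 * Real.pi) - s| := by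
        by_contra hc
        push Not at hc
        rw [abs_lt] at hc
        exact h ⟨by linarith [hc.1], by linarith [hc.2]⟩
      have h3 : 1 ≤ |(p.1 - p.2) * Real.log τ / (2 * Real.pi) - s| / r := by
        rw [le_div_iff₀ hr]; linarith
      linarith
  refine (Finset.sum_le_sum fun p _ => h1 p).trans ?_
  rw [Finset.sum_boole]
  have h2 : ((ord_finite hfin).toFinset ×ˢ (ord_finite hfin).toFinset).filter
      (fun p : ℝ × ℝ => s - r < (p.1 - p.2) * Real.log τ / (2 * Real.pi) ∧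
        (p.1 - p.2) * Real.log τ / (2 * Real.pi) < s + r) = hP.toFinset := by
    ext p
    rw [Finset.mem_filter, Finset.mem_product, Set.Finite.mem_toFinset, Set.Finite.mem_toFinset,
      Set.Finite.mem_toFinset]
    simp only [Set.mem_ofPred_eq]
    tauto
  rw [h2]

lemma W_ge {F : ℂ → ℂ} {T₁ T₂ : ℝ} (hfin : (zeros F T₁ T₂).Finite) (τ r s : ℝ) {S : Finset ℝ}
    (hS : ∀ x ∈ S, IsSimpleOrd F T₁ T₂ x) :
    ∑ x ∈ S, ∑ y ∈ S, max 0 (1 - |(x - y) * Real.log τ / (2 * Real.pi) - s| / r) ≤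
      W F τ T₁ T₂ r s := by
  rw [W_eq hfin, ← Finset.sum_product']
  apply Finset.sum_le_sum_of_subset_of_nonneg
  · intro p hp
    rw [Finset.mem_product] at hp ⊢
    exact ⟨(Set.Finite.mem_toFinset _).mpr (hS _ hp.1), (Set.Finite.mem_toFinset _).mpr (hS _ hp.2)⟩
  · intro _ _ _
    exact le_max_left _ _

/-- the common final step -/
lemma core {F : ℂ → ℂ} {τ T₁ H p ε κ r : ℝ} (hfin : (zeros F T₁ (T₁ + H)).Finite) (hτ : 1 < τ)
    (hH : 0 < H) (hr : 0 < r) (hp : p ≤ 2) (hε : 0 < ε) (hκ0 : 0 ≤ κ) (S : Finset ℝ)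
    (hS : ∀ x ∈ S, IsSimpleOrd F T₁ (T₁ + H) x)
    (hU : r * (p - ε / 3) * H ≤
      (volume (Pool.Agent.W201.UU (r * (2 * Real.pi / Real.log τ) / 2) S)).toReal)
    (hκ : 2 * Real.pi * κ + r * (2 * Real.pi / Real.log τ) / H ≤ ε / 3) {m : ℕ}
    (a : Fin m → ℝ) (ha : ∀ i, 0 ≤ a i ∧ a i ≤ κ * (H * Real.log τ)) (n : ℕ) :
    n * (m * (p - ε) - (n + 1) / (2 * r)) * (H / (2 * Real.pi) * Real.log τ) ≤
      ∑ i : Fin m, ∑ j ∈ Finset.univ.filter (fun j => i < j),
        W F τ T₁ (T₁ + H) r (a j - a i) := by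
  classical
  have hpi := Real.pi_pos
  have hlog : 0 < Real.log τ := Real.log_pos hτ
  set σ : ℝ := 2 * Real.pi / Real.log τ with hσ
  have hσ0 : 0 < σ := by positivity
  have him : ∀ x : ℝ, (1 / 2 + (x : ℂ) * I).im = x := by intro x; simp
  have hS' : ∀ x ∈ S, T₁ ≤ x ∧ x ≤ T₁ + H := by
    intro x hx
    have h1 := (hS x hx).1.2.2.2
    rw [him] at h1
    exact ⟨h1.1.le, h1.2⟩
  have h1 := Pool.Agent.TH300.ZS.pairs_fin hσ0 hH hr hp hε (by positivity) hS' hU hκ
    (fun i => a i * σ) (fun i => ⟨mul_nonneg (ha i).1 hσ0.le, by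
      have h2 := mul_le_mul_of_nonneg_right (ha i).2 hσ0.le
      have e : κ * (H * Real.log τ) * σ = 2 * Real.pi * κ * H := by rw [hσ]; field_simp
      linarith⟩) n
  have e1 : (H / σ) = H / (2 * Real.pi) * Real.log τ := by rw [hσ]; field_simp
  have e2 : ((n + 1).choose 2 : ℝ) = n * (n + 1) / 2 := by
    rw [Nat.cast_choose_two]; push_cast; ring
  rw [e1, e2] at h1
  refine le_trans (le_of_eq ?_) (h1.trans ?_)
  · field_simp
  · unfold Pool.Agent.TH300.ZS.PW
    rw [Finset.sum_div]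
    have e3 : ∑ i : Fin m, ∑ j ∈ Finset.univ.filter (fun j => i < j),
        W F τ T₁ (T₁ + H) r (a j - a i) =
        ∑ p ∈ (Finset.univ : Finset (Fin m × Fin m)).filter (fun p => p.1 < p.2),
          W F τ T₁ (T₁ + H) r (a p.2 - a p.1) := by
      rw [Finset.sum_filter, ← Finset.univ_product_univ, Finset.sum_product]
      refine Finset.sum_congr rfl fun i _ => ?_
      rw [Finset.sum_filter]
    rw [e3]
    refine Finset.sum_le_sum fun p _ => ?_
    refine le_trans (le_of_eq ?_) (W_ge hfin τ r (a p.2 - a p.1) hS)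
    rw [Finset.sum_div]
    refine Finset.sum_congr rfl fun x _ => ?_
    rw [Finset.sum_div]
    refine Finset.sum_congr rfl fun y _ => ?_
    have hw : 0 < r * σ := mul_pos hr hσ0
    rw [← max_div_div_right hw.le, zero_div]
    congr 1
    rw [sub_div, div_self hw.ne']
    congr 1
    have e4 : x - y - (a p.2 * σ - a p.1 * σ) =
        ((x - y) * Real.log τ / (2 * Real.pi) - (a p.2 - a p.1)) * σ := by
      rw [hσ]; field_simp
    rw [e4, abs_mul, abs_of_pos hσ0]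
    field_simp

/-- The inequality for zeta in the whole range. -/
lemma zeta_full (ε : ℝ) (hε : 0 < ε) (hε1 : ε ≤ 3 / 2) :
    ∃ κ : ℝ, 0 < κ ∧ ∃ T₀ : ℝ, 10 ≤ T₀ ∧ ∀ T : ℝ, T₀ ≤ T → ∀ r : ℝ, 0 < r → r ≤ 9 / 10 →
      ∀ (m n : ℕ) (a : Fin m → ℝ), (∀ i, 0 ≤ a i ∧ a i ≤ κ * (T * Real.log T)) →
        n * (m * (2 - cMT⁻¹ - ε) - (n + 1) / (2 * r)) * (T / (2 * Real.pi) * Real.log T) ≤
          ∑ i : Fin m, ∑ j ∈ Finset.univ.filter (fun j => i < j),
            W riemannZeta T 0 T r (a j - a i) := by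
  have hpi := Real.pi_pos
  have hcg := H344.cMTinv_ge
  rw [cMT_inv]
  obtain ⟨T₁, hT₁, h⟩ := Pool.Agent.TH300.ZS.nbhd_full (ε := ε / 3) (by linarith) (by linarith)
  refine ⟨ε / (6 * (2 * Real.pi)), by positivity, max T₁ (max 10 (Real.exp (2 * Real.pi) + 6 / ε)),
    (le_max_left _ _).trans (le_max_right _ _), fun T hT r hr0 hr1 => ?_⟩
  have hTT1 : T₁ ≤ T := (le_max_left _ _).trans hT
  have hT10 : 10 ≤ T := ((le_max_left _ _).trans (le_max_right _ _)).trans hT
  have hTe : Real.exp (2 * Real.pi) + 6 / ε ≤ T := ((le_max_right _ _).trans (le_max_right _ _)).trans hT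
  have hexp := Real.exp_pos (2 * Real.pi)
  have h6ε : 0 < 6 / ε := by positivity
  have hlog1 : 2 * Real.pi ≤ Real.log T := by
    rw [Real.le_log_iff_exp_le (by linarith)]
    linarith
  have hlog : 0 < Real.log T := by linarith
  obtain ⟨S, hS⟩ := Pool.Agent.TH300.ZS.isAF_exists T
  have hSo : ∀ x ∈ S, IsSimpleOrd riemannZeta 0 T x := by
    intro x hx
    obtain ⟨a3, a4⟩ := (hS x).mp hx
    rw [mul_comm] at a3 a4
    exact ⟨by rw [zeros_eq]; exact a3, a4⟩
  have h1 := h T hTT1 S hS r hr0 hr1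
  · intro m n a ha
    have hT0 : 0 < T := by linarith
    have h2 := core (F := riemannZeta) (τ := T) (T₁ := 0) (H := T) (p := 2 - H370.cMTinv) (ε := ε)
      (κ := ε / (6 * (2 * Real.pi))) (r := r) (by rw [zero_add]; exact zeros_finite_zeta T)
      (by linarith) hT0 hr0 (by linarith) hε (by positivity) S (by rw [zero_add]; exact hSo) h1 (by
        have e : 2 * Real.pi * (ε / (6 * (2 * Real.pi))) = ε / 6 := by field_simp
        rw [e]
        have h3 : r * (2 * Real.pi / Real.log T) ≤ 1 := by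
          have : 2 * Real.pi / Real.log T ≤ 1 := by rw [div_le_one hlog]; exact hlog1
          have h0 : 0 ≤ 2 * Real.pi / Real.log T := by positivity
          nlinarith
        have h4 : r * (2 * Real.pi / Real.log T) / T ≤ ε / 6 := by
          rw [div_le_iff₀ hT0]
          have h5 : 6 / ε ≤ T := by linarith
          have h6 := mul_le_mul_of_nonneg_left h5 (show 0 ≤ ε / 6 by linarith)
          have e : ε / 6 * (6 / ε) = 1 := by field_simp
          linarith
        linarith) a ha n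
    simp only [zero_add] at h2
    exact h2

/-- The inequality in short intervals. -/
lemma short {q : ℕ} [NeZero q] (χ : DirichletCharacter ℂ q) (hχ : χ.IsPrimitive)
    (h ε : ℝ) (hh : 0 < h) (hh1 : h ≤ 1) (hε : 0 < ε) :
    ∃ κ : ℝ, 0 < κ ∧ ∃ T₀ : ℝ, 10 ≤ T₀ ∧ ∀ T : ℝ, T₀ ≤ T → ∀ H : ℝ, T ^ h ≤ H → H ≤ T →
      ∀ r : ℝ, 0 < r → h * r ≤ 9 / 10 →
      ∀ (m n : ℕ) (a : Fin m → ℝ), (∀ i, 0 ≤ a i ∧ a i ≤ κ * (H * Real.log T)) →
        n * (m * (2 - c h - ε) - (n + 1) / (2 * r)) * (H / (2 * Real.pi) * Real.log T) ≤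
          ∑ i : Fin m, ∑ j ∈ Finset.univ.filter (fun j => i < j),
            W (DirichletCharacter.LFunction χ) T T (T + H) r (a j - a i) := by
  have hpi := Real.pi_pos
  have hc0 := c_nonneg hh hh1
  obtain ⟨T₁, hT₁, h1⟩ := Pool.Agent.TH300.ZS.nbhd_asym (H370.good_dirichlet χ hχ) hh hh1
    (show 0 < ε / 3 by linarith)
  rw [← c_eq hh] at h1
  have htop : Tendsto (fun T : ℝ => T ^ h) atTop atTop := tendsto_rpow_atTop hh
  obtain ⟨T₂, hT₂⟩ := (htop.eventually_ge_atTop (6 / ε + 1)).exists_forall_of_atTop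
  obtain ⟨T₃, hT₃⟩ := (Real.tendsto_log_atTop.eventually_ge_atTop
    (2 * Real.pi / h)).exists_forall_of_atTop
  refine ⟨ε / (6 * (2 * Real.pi)), by positivity, max (max T₁ T₂) (max T₃ 10),
    (le_max_right _ _).trans (le_max_right _ _), fun T hTT H hH hHT r hr0 hr1 => ?_⟩
  have hTT1 : T₁ ≤ T := ((le_max_left _ _).trans (le_max_left _ _)).trans hTT
  have hTT2 := hT₂ T (((le_max_right _ _).trans (le_max_left _ _)).trans hTT)
  have hTT3 := hT₃ T (((le_max_left _ _).trans (le_max_right _ _)).trans hTT)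
  have hT10 : 10 ≤ T := ((le_max_right _ _).trans (le_max_right _ _)).trans hTT
  have h6ε : 0 < 6 / ε := by positivity
  have hH0 : 6 / ε ≤ H := by linarith
  have hHpos : 0 < H := by linarith
  have hlog : 0 < Real.log T := by
    have : 0 < 2 * Real.pi / h := by positivity
    linarith
  obtain ⟨S, hS, hSU⟩ := h1 T hTT1 H hH hHT
  have hSo : ∀ x ∈ S, IsSimpleOrd (DirichletCharacter.LFunction χ) T (T + H) x := by
    intro x hx
    obtain ⟨a1, a2, a3, a4⟩ := hS x hx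
    rw [mul_comm] at a3 a4
    exact ⟨by rw [zeros_eq]; exact a3, a4⟩
  have h2 := hSU r hr0 hr1
  · intro m n a ha
    refine core (F := DirichletCharacter.LFunction χ) (τ := T) (T₁ := T) (H := H)
      (p := 2 - c h) (ε := ε) (κ := ε / (6 * (2 * Real.pi))) (r := r)
      (zeros_finite χ hχ T (T + H) (by linarith)) (by linarith) hHpos hr0 (by linarith) hε
      (by positivity) S hSo h2 ?_ a ha n
    have e : 2 * Real.pi * (ε / (6 * (2 * Real.pi))) = ε / 6 := by field_simp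
    rw [e]
    have h3 : r * (2 * Real.pi / Real.log T) ≤ 1 := by
      have h5 : 2 * Real.pi / Real.log T ≤ h := by
        rw [div_le_iff₀ hlog]
        rw [div_le_iff₀ hh] at hTT3
        linarith
      have h6 : r * (2 * Real.pi / Real.log T) ≤ r * h := mul_le_mul_of_nonneg_left h5 hr0.le
      linarith
    have h4 : r * (2 * Real.pi / Real.log T) / H ≤ ε / 6 := by
      rw [div_le_iff₀ hHpos]
      have h6 := mul_le_mul_of_nonneg_left hH0 (show 0 ≤ ε / 6 by linarith)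
      have e : ε / 6 * (6 / ε) = 1 := by field_simp
      linarith
    linarith

/-- one of the pairs of the indices -/
lemma pigeon {m : ℕ} (hm : 2 ≤ m) (f : Fin m → Fin m → ℝ) {B : ℝ}
    (h : (m : ℝ) * (m - 1) / 2 * B ≤ ∑ i : Fin m, ∑ j ∈ Finset.univ.filter (fun j => i < j), f i j) :
    ∃ i j, i < j ∧ B ≤ f i j := by
  classical
  by_contra hcon
  push Not at hcon
  have e3 : ∀ g : Fin m → Fin m → ℝ, ∑ i : Fin m, ∑ j ∈ Finset.univ.filter (fun j => i < j), g i j =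
      ∑ p ∈ (Finset.univ : Finset (Fin m × Fin m)).filter (fun p => p.1 < p.2), g p.1 p.2 := by
    intro g
    rw [Finset.sum_filter, ← Finset.univ_product_univ, Finset.sum_product]
    refine Finset.sum_congr rfl fun i _ => ?_
    rw [Finset.sum_filter]
  rw [e3] at h
  have hne : ((Finset.univ : Finset (Fin m × Fin m)).filter (fun p => p.1 < p.2)).Nonempty := by
    exact ⟨(⟨0, by omega⟩, ⟨1, by omega⟩), Finset.mem_filter.mpr
      ⟨Finset.mem_univ _, Fin.mk_lt_mk.mpr one_pos⟩⟩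
  have h1 : ∑ p ∈ (Finset.univ : Finset (Fin m × Fin m)).filter (fun p => p.1 < p.2), f p.1 p.2 <
      ∑ p ∈ (Finset.univ : Finset (Fin m × Fin m)).filter (fun p => p.1 < p.2), B :=
    Finset.sum_lt_sum_of_nonempty hne fun p hp => hcon p.1 p.2 (Finset.mem_filter.mp hp).2
  have h2 : ∑ p ∈ (Finset.univ : Finset (Fin m × Fin m)).filter (fun p => p.1 < p.2), B =
      (m : ℝ) * (m - 1) / 2 * B := by
    have h3 := Pool.Agent.TH300.ZS.powerset_two (m := m) (fun _ => B)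
    rw [← h3, Finset.sum_const, Finset.card_powersetCard, Finset.card_univ, Fintype.card_fin,
      nsmul_eq_mul, Nat.cast_choose_two]
  linarith

/-- the two windows -/
lemma popular : ∃ κ : ℝ, 0 < κ ∧ ∃ T₀ : ℝ, ∀ T : ℝ, T₀ ≤ T → ∀ m : ℕ, 2 ≤ m → ∀ a : Fin m → ℝ,
    (∀ i, 0 ≤ a i ∧ a i ≤ κ * (T * Real.log T)) → ∃ i j, i < j ∧
      1 / (100 * m) * (T / (2 * Real.pi) * Real.log T) ≤
        (Nsimple riemannZeta T 0 T (a j - a i - 3 / (2 * m)) (a j - a i + 3 / (2 * m)) : ℝ) := by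
  have hpi := Real.pi_pos
  have hcn := H370.Expl.cMTinv_num
  obtain ⟨κ, hκ, T₀, hT₀, h⟩ := zeta_full (1 / 10000) (by norm_num) (by norm_num)
  refine ⟨κ, hκ, T₀, fun T hT m hm a ha => ?_⟩
  have hm2 : (2 : ℝ) ≤ m := by exact_mod_cast hm
  have hm0 : (0 : ℝ) < m := by linarith
  have hr0 : (0 : ℝ) < 3 / (2 * m) := by positivity
  have hlog : 0 < Real.log T := Real.log_pos (by linarith)
  have hM : 0 < T / (2 * Real.pi) * Real.log T := by
    have : 0 < T := by linarith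
    positivity
  have h1 := (h T hT (3 / (2 * m)) hr0 (by
    rw [div_le_div_iff₀ (by positivity) (by norm_num)]; linarith)) m 1 a ha
  obtain ⟨i, j, hij, h2⟩ := pigeon hm (fun i j => W riemannZeta T 0 T (3 / (2 * m)) (a j - a i))
    (B := 1 / (100 * m) * (T / (2 * Real.pi) * Real.log T)) (by
      refine le_trans ?_ h1
      have e : (1 + 1 : ℝ) / (2 * (3 / (2 * m))) = 2 / 3 * m := by field_simp; norm_num
      push_cast
      rw [e, cMT_inv]
      have e2 : (m : ℝ) * (m - 1) / 2 * (1 / (100 * m) * (T / (2 * Real.pi) * Real.log T)) =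
          (m - 1) / 200 * (T / (2 * Real.pi) * Real.log T) := by field_simp; ring
      rw [e2]
      apply mul_le_mul_of_nonneg_right _ hM.le
      norm_num at hcn ⊢
      nlinarith)
  refine ⟨i, j, hij, h2.trans ?_⟩
  exact W_le (zeros_finite_zeta T) T hr0 _

/-- **Popular differences.** -/
theorem result :
    -- among `m` numbers there are two with a popular difference
    (∃ κ : ℝ, 0 < κ ∧ ∃ T₀ : ℝ, ∀ T : ℝ, T₀ ≤ T → ∀ m : ℕ, 2 ≤ m →
      (∀ a : Fin m → ℝ, (∀ i, 0 ≤ a i ∧ a i ≤ κ * (T * Real.log T)) → ∃ i j, i < j ∧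
        1 / (100 * m) * (T / (2 * Real.pi) * Real.log T) ≤
          (N riemannZeta T 0 T (a j - a i - 3 / (2 * m)) (a j - a i + 3 / (2 * m)) : ℝ)) ∧
      (∀ s : ℝ, 0 ≤ s → m * s ≤ κ * (T * Real.log T) → ∃ k : ℕ, 1 ≤ k ∧ k < m ∧
        1 / (100 * m) * (T / (2 * Real.pi) * Real.log T) ≤
          (N riemannZeta T 0 T (k * s - 3 / (2 * m)) (k * s + 3 / (2 * m)) : ℝ))) ∧
    -- the inequality for zeta
    (∀ ε : ℝ, 0 < ε → ε ≤ 1 → ∃ κ : ℝ, 0 < κ ∧ ∃ T₀ : ℝ, ∀ T : ℝ, T₀ ≤ T →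
      ∀ r : ℝ, 0 < r → r ≤ 9 / 10 →
      (∀ (m n : ℕ) (a : Fin m → ℝ), (∀ i, 0 ≤ a i ∧ a i ≤ κ * (T * Real.log T)) →
        n * (m * (2 - cMT⁻¹ - ε) - (n + 1) / (2 * r)) * (T / (2 * Real.pi) * Real.log T) ≤
          ∑ i : Fin m, ∑ j ∈ Finset.univ.filter (fun j => i < j),
            W riemannZeta T 0 T r (a j - a i)) ∧
      ∀ s : ℝ, W riemannZeta T 0 T r s ≤ N riemannZeta T 0 T (s - r) (s + r)) ∧
    -- the inequality for the L-functions, in short intervals
    (∀ (q : ℕ) [NeZero q] (χ : DirichletCharacter ℂ q), χ.IsPrimitive →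
      ∀ h ε : ℝ, 0 < h → h ≤ 1 → 0 < ε → ∃ κ : ℝ, 0 < κ ∧ ∃ T₀ : ℝ, ∀ T : ℝ, T₀ ≤ T →
      ∀ H : ℝ, T ^ h ≤ H → H ≤ T → ∀ r : ℝ, 0 < r → h * r ≤ 9 / 10 →
      (∀ (m n : ℕ) (a : Fin m → ℝ), (∀ i, 0 ≤ a i ∧ a i ≤ κ * (H * Real.log T)) →
        n * (m * (2 - c h - ε) - (n + 1) / (2 * r)) * (H / (2 * Real.pi) * Real.log T) ≤
          ∑ i : Fin m, ∑ j ∈ Finset.univ.filter (fun j => i < j),
            W (DirichletCharacter.LFunction χ) T T (T + H) r (a j - a i)) ∧
      ∀ s : ℝ, W (DirichletCharacter.LFunction χ) T T (T + H) r s ≤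
        N (DirichletCharacter.LFunction χ) T T (T + H) (s - r) (s + r)) := by
  refine ⟨?_, ?_, ?_⟩
  · obtain ⟨κ, hκ, T₀, h⟩ := popular
    have h1 : ∀ T : ℝ, T₀ ≤ T → ∀ m : ℕ, 2 ≤ m → ∀ a : Fin m → ℝ,
        (∀ i, 0 ≤ a i ∧ a i ≤ κ * (T * Real.log T)) → ∃ i j, i < j ∧
        1 / (100 * m) * (T / (2 * Real.pi) * Real.log T) ≤
          (N riemannZeta T 0 T (a j - a i - 3 / (2 * m)) (a j - a i + 3 / (2 * m)) : ℝ) := by
      intro T hT m hm a ha
      obtain ⟨i, j, hij, h2⟩ := h T hT m hm a ha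
      refine ⟨i, j, hij, h2.trans ?_⟩
      exact_mod_cast Nsimple_le (zeros_finite_zeta T) T _ _
    refine ⟨κ, hκ, T₀, fun T hT m hm => ⟨h1 T hT m hm, fun s hs hms => ?_⟩⟩
    obtain ⟨i, j, hij, h2⟩ := h1 T hT m hm (fun i => (i : ℕ) * s) (fun i => ⟨by positivity, by
      refine le_trans (mul_le_mul_of_nonneg_right ?_ hs) hms
      exact_mod_cast i.2.le⟩)
    refine ⟨j - i, ?_, ?_, ?_⟩
    · have : (i : ℕ) < j := hij
      omega
    · have := j.2
      omega
    · have e : (((j : ℕ) - (i : ℕ) : ℕ) : ℝ) * s = (j : ℕ) * s - (i : ℕ) * s := by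
        rw [Nat.cast_sub (show (i : ℕ) ≤ j from hij.le)]; ring
      rw [e]
      exact h2
  · intro ε hε hε1
    obtain ⟨κ, hκ, T₀, hT₀, h⟩ := zeta_full ε hε (by linarith)
    refine ⟨κ, hκ, T₀, fun T hT r hr0 hr1 => ?_⟩
    refine ⟨h T hT r hr0 hr1, fun s => (W_le (zeros_finite_zeta T) T hr0 s).trans ?_⟩
    exact_mod_cast Nsimple_le (zeros_finite_zeta T) T _ _
  · intro q _ χ hχ h ε hh hh1 hε
    obtain ⟨κ, hκ, T₀, hT₀, h1⟩ := short χ hχ h ε hh hh1 hε
    refine ⟨κ, hκ, T₀, fun T hT H hH hHT r hr0 hr1 => ?_⟩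
    have hfin := zeros_finite χ hχ T (T + H) (by linarith)
    refine ⟨h1 T hT H hH hHT r hr0 hr1, fun s => (W_le hfin T hr0 s).trans ?_⟩
    exact_mod_cast Nsimple_le hfin T _ _

end Pool.Agent.Results.MP_8958e8_nt.PopularDifferences
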