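import Pool.Agent.TH299.SW.Main
import Pool.Agent.H370R2.DirGood

/-!
# Pairs of zeros in a window shorter than the mean spacing, unconditionally

No hypothesis is assumed.  Let `χ` be a primitive Dirichlet character (modulus `1`: the Riemann zeta
function).  There is `δ > 0` such that for all large `T`, every interval `(A, B]` inside `(0, T]`
with `B - A ≥ T ^ (1 - δ)`, all `α ≤ 2/5` and all `β ≥ 5/4`, the number of pairs of ordinates in
`(A, B]` of zeros of `L(s, χ)` whose difference lies between `α` and `β` times `2π / log T` is at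
least `(1/400) ((B - A)/2π) log T`.  The window `[2/5, 5/4]` has length `17/20`, less than one mean
spacing.  The bound holds already for the pairs of simple zeros on the critical line.

Idea of the proof.  Let `x_1 < x_2 < …` be the ordinates of the simple critical zeros which remain
after the removal of one point of every pair with difference in the window.  The trace inequality
of the starting files, used with the window function `w(x) = 1 - 0.47 cos 2πx - 0.15 cos 4πx` on
`[-1/2, 1/2]` (which puts the mass at the ends) and a tridiagonal test matrix, gives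
`(2 - c) N ≤ (number of removed points) + ∑ e(x_{i+1} - x_i)`, where `e(g) = 1 - 4 t φ(g) + 2 t²`
with `|t| ≤ 1/2`, `φ` is the cosine transform of `w` and `c = ∫ w² + ∬ |x - y| w w < 1.49313`.
Since `φ` is close to `1` for `g ≤ 2/5` and very negative at `g = 5/4`, one has
`e(g) < (2 - c) g` for all the gaps `g` outside the window, and this bounds the sum over the gaps.
-/

open Filter Topology Complex

namespace Pool.Agent.Results.MP_8958e8_nt.ShortWindow

/-- the nontrivial zeros of `F` with ordinate in `(T₁, T₂]` -/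
def zeros (F : ℂ → ℂ) (T₁ T₂ : ℝ) : Set ℂ :=
  {s : ℂ | F s = 0 ∧ 0 < s.re ∧ s.re < 1 ∧ T₁ < s.im ∧ s.im ≤ T₂}

/-- the multiplicity of a zero -/
noncomputable def mult (F : ℂ → ℂ) (s : ℂ) : ℕ := analyticOrderNatAt F s

/-- the number of ordered pairs of zeros in `zeros F T₁ T₂`, counted with multiplicity, with
difference of the ordinates times `log τ / 2π` in `[α, β]` -/
noncomputable def N (F : ℂ → ℂ) (τ T₁ T₂ α β : ℝ) : ℕ :=
  ∑ᶠ s ∈ zeros F T₁ T₂, ∑ᶠ s' ∈ {s' : ℂ | s' ∈ zeros F T₁ T₂ ∧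
    α ≤ (s.im - s'.im) * Real.log τ / (2 * Real.pi) ∧
    (s.im - s'.im) * Real.log τ / (2 * Real.pi) ≤ β}, mult F s * mult F s'

/-- `x` is the ordinate in `(T₁, T₂]` of a simple zero of `F` on the critical line -/
def IsSimpleOrd (F : ℂ → ℂ) (T₁ T₂ x : ℝ) : Prop :=
  (1 / 2 + x * I : ℂ) ∈ zeros F T₁ T₂ ∧ mult F (1 / 2 + x * I : ℂ) = 1

/-- the number of ordered pairs `(x, y)` of ordinates in `(T₁, T₂]` of simple zeros of `F` on the
critical line with `(x - y) * log τ / 2π` in the open interval `(α, β)` -/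
noncomputable def Nsimple (F : ℂ → ℂ) (τ T₁ T₂ α β : ℝ) : ℕ :=
  {p : ℝ × ℝ | IsSimpleOrd F T₁ T₂ p.1 ∧ IsSimpleOrd F T₁ T₂ p.2 ∧
    α < (p.1 - p.2) * Real.log τ / (2 * Real.pi) ∧
    (p.1 - p.2) * Real.log τ / (2 * Real.pi) < β}.ncard

lemma zeros_eq (F : ℂ → ℂ) (T₁ T₂ : ℝ) : zeros F T₁ T₂ = H370.zset F T₁ T₂ := by
  ext s
  simp only [zeros, H370.zset, Set.mem_ofPred_eq]
  tauto

/-- modulus `1`: the Riemann zeta function -/
theorem zeta_case (χ : DirichletCharacter ℂ 1) :
    χ.IsPrimitive ∧ DirichletCharacter.LFunction χ = riemannZeta := by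
  refine ⟨?_, DirichletCharacter.LFunction_modOne_eq⟩
  rw [DirichletCharacter.level_one' χ rfl]
  exact DirichletCharacter.isPrimitive_one_level_one

lemma near_one {q : ℕ} [NeZero q] (χ : DirichletCharacter ℂ q) (hχ : χ.IsPrimitive) :
    ∀ᶠ s in 𝓝[≠] (1 : ℂ), DirichletCharacter.LFunction χ s ≠ 0 := by
  by_cases h1 : χ = 1
  · have hq : q = 1 := by
      rw [h1] at hχ
      have h2 : (1 : DirichletCharacter ℂ q).conductor = q := hχ
      rw [DirichletCharacter.conductor_one] at h2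
      exact h2.symm
    subst hq
    rw [(zeta_case χ).2]
    have h := riemannZeta_residue_one
    have h3 := h.eventually_ne (one_ne_zero : (1 : ℂ) ≠ 0)
    filter_upwards [h3] with s hs h0
    rw [h0, mul_zero] at hs
    exact hs rfl
  · have h2 : ContinuousAt (DirichletCharacter.LFunction χ) 1 :=
      (DirichletCharacter.differentiable_LFunction h1 1).continuousAt
    have h3 : DirichletCharacter.LFunction χ 1 ≠ 0 :=
      DirichletCharacter.LFunction_ne_zero_of_one_le_re χ (Or.inl h1) (by simp)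
    exact (h2.eventually_ne h3).filter_mono nhdsWithin_le_nhds

/-- the sets of zeros of the L-functions are finite -/
theorem zeros_finite {q : ℕ} [NeZero q] (χ : DirichletCharacter ℂ q) (hχ : χ.IsPrimitive)
    (A B : ℝ) (hA : 0 ≤ A) : (zeros (DirichletCharacter.LFunction χ) A B).Finite := by
  have h := H370.zset_zero_finite (F := DirichletCharacter.LFunction χ)
    (fun s hs => H370.DL.analyticAt_L hs)
    (DirichletCharacter.LFunction_ne_zero_of_one_le_re χ (Or.inr (by norm_num)) (by norm_num))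
    (near_one χ hχ) B
  rw [← zeros_eq] at h
  refine h.subset ?_
  rintro s ⟨a1, a2, a3, a4, a5⟩
  exact ⟨a1, a2, a3, hA.trans_lt a4, a5⟩

lemma ord_finite {F : ℂ → ℂ} {T₁ T₂ : ℝ} (hfin : (zeros F T₁ T₂).Finite) :
    {x : ℝ | IsSimpleOrd F T₁ T₂ x}.Finite := by
  refine Set.Finite.of_finite_image (f := fun x : ℝ => (1 / 2 + x * I : ℂ))
    (hfin.subset ?_) ?_
  · rintro s ⟨x, hx, rfl⟩
    exact hx.1
  · intro x _ y _ hxy
    have := congrArg Complex.im hxy
    simpa using this

lemma pairs_finite {F : ℂ → ℂ} {T₁ T₂ : ℝ} (hfin : (zeros F T₁ T₂).Finite) (τ α β : ℝ) :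
    {p : ℝ × ℝ | IsSimpleOrd F T₁ T₂ p.1 ∧ IsSimpleOrd F T₁ T₂ p.2 ∧
      α < (p.1 - p.2) * Real.log τ / (2 * Real.pi) ∧
      (p.1 - p.2) * Real.log τ / (2 * Real.pi) < β}.Finite :=
  ((ord_finite hfin).prod (ord_finite hfin)).subset fun _ hp => ⟨hp.1, hp.2.1⟩

lemma PC_eq (S : Finset ℝ) (a b : ℝ) : Pool.Agent.W201.PC S a b =
    ((S ×ˢ S).filter (fun p : ℝ × ℝ => a < p.1 - p.2 ∧ p.1 - p.2 < b)).card := by
  classical
  unfold Pool.Agent.W201.PC
  simp only [Finset.card_filter]
  rw [Finset.sum_product]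

/-- the pairs in a finite set of simple ordinates -/
lemma PC_le {F : ℂ → ℂ} {T₁ T₂ τ α β : ℝ} (hfin : (zeros F T₁ T₂).Finite) (hτ : 1 < τ)
    (S : Finset ℝ) (hS : ∀ x ∈ S, IsSimpleOrd F T₁ T₂ x) :
    Pool.Agent.W201.PC S (2 * Real.pi * α / Real.log τ) (2 * Real.pi * β / Real.log τ) ≤
      Nsimple F τ T₁ T₂ α β := by
  classical
  have hlog : 0 < Real.log τ := Real.log_pos hτ
  have hpi := Real.pi_pos
  rw [PC_eq, ← Set.ncard_coe_finset]
  apply Set.ncard_le_ncard _ (pairs_finite hfin τ α β)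
  intro p hp
  rw [Finset.mem_coe, Finset.mem_filter, Finset.mem_product] at hp
  obtain ⟨⟨h1, h2⟩, h3, h4⟩ := hp
  refine ⟨hS _ h1, hS _ h2, ?_, ?_⟩
  · rw [lt_div_iff₀ (by positivity)]
    rw [div_lt_iff₀ hlog] at h3
    linarith
  · rw [div_lt_iff₀ (by positivity)]
    rw [lt_div_iff₀ hlog] at h4
    linarith

/-- the pairs of simple critical zeros are among all the pairs -/
lemma Nsimple_le {F : ℂ → ℂ} {T₁ T₂ : ℝ} (hfin : (zeros F T₁ T₂).Finite) (τ α β : ℝ) :
    Nsimple F τ T₁ T₂ α β ≤ N F τ T₁ T₂ α β := by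
  classical
  set Z := hfin.toFinset with hZ
  set w : ℂ → ℂ → Prop := fun s s' => α ≤ (s.im - s'.im) * Real.log τ / (2 * Real.pi) ∧
      (s.im - s'.im) * Real.log τ / (2 * Real.pi) ≤ β with hw
  have hN : N F τ T₁ T₂ α β = ∑ s ∈ Z, ∑ s' ∈ Z.filter (fun s' => w s s'),
      mult F s * mult F s' := by
    unfold N
    rw [finsum_mem_eq_finite_toFinset_sum _ hfin]
    refine Finset.sum_congr rfl fun s _ => ?_
    have hfin' : {s' : ℂ | s' ∈ zeros F T₁ T₂ ∧
        α ≤ (s.im - s'.im) * Real.log τ / (2 * Real.pi) ∧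
        (s.im - s'.im) * Real.log τ / (2 * Real.pi) ≤ β}.Finite := hfin.subset fun _ h => h.1
    rw [finsum_mem_eq_finite_toFinset_sum _ hfin']
    refine Finset.sum_congr ?_ fun _ _ => rfl
    ext s'
    rw [Set.Finite.mem_toFinset, Finset.mem_filter, hZ, Set.Finite.mem_toFinset]
    rfl
  have hN2 : N F τ T₁ T₂ α β =
      ∑ p ∈ (Z ×ˢ Z).filter (fun p : ℂ × ℂ => w p.1 p.2), mult F p.1 * mult F p.2 := by
    rw [hN, Finset.sum_filter, Finset.sum_product]
    refine Finset.sum_congr rfl fun s _ => ?_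
    rw [Finset.sum_filter]
  rw [hN2]
  have hP := pairs_finite hfin τ α β
  unfold Nsimple
  rw [Set.ncard_eq_toFinset_card _ hP]
  set g : ℝ × ℝ → ℂ × ℂ := fun p => (1 / 2 + p.1 * I, 1 / 2 + p.2 * I) with hg
  have him : ∀ x : ℝ, (1 / 2 + (x : ℂ) * I).im = x := by intro x; simp
  have hinj : Function.Injective g := by
    intro p p' h
    have h1 := congrArg (fun z : ℂ × ℂ => z.1.im) h
    have h2 := congrArg (fun z : ℂ × ℂ => z.2.im) h
    simp only [hg, him] at h1 h2
    exact Prod.ext h1 h2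
  rw [← Finset.card_image_of_injective _ hinj, Finset.card_eq_sum_ones]
  have hsub : hP.toFinset.image g ⊆ (Z ×ˢ Z).filter (fun p : ℂ × ℂ => w p.1 p.2) := by
    intro z hz
    obtain ⟨p, hp, rfl⟩ := Finset.mem_image.mp hz
    rw [Set.Finite.mem_toFinset] at hp
    obtain ⟨h1, h2, h3, h4⟩ := hp
    rw [Finset.mem_filter, Finset.mem_product, hZ, Set.Finite.mem_toFinset,
      Set.Finite.mem_toFinset]
    refine ⟨⟨h1.1, h2.1⟩, ?_⟩
    simp only [hw, hg, him]
    exact ⟨h3.le, h4.le⟩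
  refine (Finset.sum_le_sum fun z hz => ?_).trans (Finset.sum_le_sum_of_subset hsub)
  obtain ⟨p, hp, rfl⟩ := Finset.mem_image.mp hz
  rw [Set.Finite.mem_toFinset] at hp
  simp only [hg]
  rw [hp.1.2, hp.2.1.2]

/-! ### Long intervals as unions of short ones -/

section pieces

variable {F : ℂ → ℂ} (hfin : ∀ A B : ℝ, 0 ≤ A → (zeros F A B).Finite)

open Classical in
/-- the ordinates in `(A, B]` of the simple critical zeros -/
noncomputable def AF (F : ℂ → ℂ) (A B : ℝ) : Finset ℝ :=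
  if h : {x : ℝ | IsSimpleOrd F A B x}.Finite then h.toFinset else ∅

include hfin in
lemma mem_AF {A B x : ℝ} (hA : 0 ≤ A) : x ∈ AF F A B ↔ IsSimpleOrd F A B x := by
  unfold AF
  rw [dif_pos (ord_finite (hfin A B hA)), Set.Finite.mem_toFinset]
  rfl

lemma simple_mono {A B A' B' x : ℝ} (h : IsSimpleOrd F A B x) (hA : A' ≤ A) (hB : B ≤ B') :
    IsSimpleOrd F A' B' x :=
  ⟨⟨h.1.1, h.1.2.1, h.1.2.2.1, hA.trans_lt h.1.2.2.2.1, h.1.2.2.2.2.trans hB⟩, h.2⟩

lemma im_half (x : ℝ) : (1 / 2 + (x : ℂ) * I).im = x := by simp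

lemma simple_bd {A B x : ℝ} (h : IsSimpleOrd F A B x) : A < x ∧ x ≤ B := by
  have h1 := h.1.2.2.2
  rw [im_half] at h1
  exact h1

include hfin in
lemma pieces {c d T₁ : ℝ} (hc : 0 ≤ c) (hd : 0 < d) (hT₁ : 10 ≤ T₁) (hT₁d : 3 ≤ T₁ ^ d)
    (h : ∀ T : ℝ, T₁ ≤ T → ∀ H : ℝ, T ^ (1 - d) ≤ H → H ≤ T → ∃ S : Finset ℝ,
        (∀ x ∈ S, T < x ∧ x ≤ T + H ∧ (1 / 2 + I * x : ℂ) ∈ H370.zset F T (T + H) ∧
          H370.mult F (1 / 2 + I * x) = 1) ∧
        ∀ a b : ℝ, a ≤ 2 / 5 * (2 * Real.pi / Real.log T) →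
          1.2495 * (2 * Real.pi / Real.log T) ≤ b →
          c * (H / (2 * Real.pi) * Real.log T) ≤ Pool.Agent.W201.PC S a b) :
    ∀ j : ℕ, ∀ A B : ℝ, T₁ ≤ A → A ^ (1 - d) ≤ B - A → B - A ≤ 2 ^ j * A → ∀ a b : ℝ,
      a ≤ 2 / 5 * (2 * Real.pi / Real.log B) → 1.2495 * (2 * Real.pi / Real.log A) ≤ b →
      c * ((B - A) / (2 * Real.pi) * Real.log A) ≤ Pool.Agent.W201.PC (AF F A B) a b := by
  have hpi := Real.pi_pos
  intro j
  induction j with
  | zero =>
    intro A B hA h1 h2 a b ha hb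
    rw [pow_zero, one_mul] at h2
    have hA10 : 10 ≤ A := hT₁.trans hA
    have hAB : A ≤ B := by
      have := Real.rpow_nonneg (show 0 ≤ A by linarith) (1 - d)
      linarith
    have hlA : 0 < Real.log A := Real.log_pos (by linarith)
    have hlAB : Real.log A ≤ Real.log B := Real.log_le_log (by linarith) hAB
    obtain ⟨S, hS1, hS2⟩ := h A hA (B - A) h1 h2
    have h3 := hS2 a b (ha.trans (mul_le_mul_of_nonneg_left
      (div_le_div_of_nonneg_left (by positivity) hlA hlAB) (by norm_num))) hb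
    refine h3.trans ?_
    have hsub : S ⊆ AF F A B := by
      intro x hx
      obtain ⟨a1, a2, a3, a4⟩ := hS1 x hx
      rw [mul_comm, show A + (B - A) = B by ring, ← zeros_eq] at a3
      rw [mul_comm] at a4
      exact (mem_AF hfin (by linarith)).mpr ⟨a3, a4⟩
    have h4 := Pool.Agent.W201.PC_union hsub (Finset.empty_subset _)
      (Finset.disjoint_empty_right _) a b
    have h5 : Pool.Agent.W201.PC S a b ≤ Pool.Agent.W201.PC (AF F A B) a b := by omega
    exact_mod_cast h5
  | succ j ih =>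
    intro A B hA h1 h2 a b ha hb
    have hA10 : 10 ≤ A := hT₁.trans hA
    rcases le_or_gt (B - A) (2 ^ j * A) with h3 | h3
    · exact ih A B hA h1 h3 a b ha hb
    have h2J : (1 : ℝ) ≤ 2 ^ j := one_le_pow₀ (by norm_num)
    have hpow : (2 : ℝ) ^ (j + 1) = 2 ^ j * 2 := pow_succ _ _
    have h4 : A < B - A := by
      refine lt_of_le_of_lt ?_ h3
      nlinarith
    obtain ⟨M, hM⟩ : ∃ M : ℝ, M = (A + B) / 2 := ⟨_, rfl⟩
    have hMA : M - A = (B - A) / 2 := by rw [hM]; ring
    have hBM : B - M = (B - A) / 2 := by rw [hM]; ring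
    have hAM : A ≤ M := by linarith
    have hMB : M ≤ B := by linarith
    have key : ∀ x : ℝ, T₁ ≤ x → x ^ (1 - d) ≤ x / 3 := by
      intro x hx
      have hx0 : 0 < x := by linarith
      have e1 : x ^ (1 - d) * x ^ d = x := by
        rw [← Real.rpow_add hx0]; simp
      have e2 : 3 ≤ x ^ d := hT₁d.trans (Real.rpow_le_rpow (by linarith) hx hd.le)
      have e3 : 0 ≤ x ^ (1 - d) := Real.rpow_nonneg hx0.le _
      nlinarith
    have hlA : 0 < Real.log A := Real.log_pos (by linarith)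
    have hlAM : Real.log A ≤ Real.log M := Real.log_le_log (by linarith) hAM
    have hlMB : Real.log M ≤ Real.log B := Real.log_le_log (by linarith) hMB
    have hlM : 0 < Real.log M := hlA.trans_le hlAM
    have i1 := ih A M hA (by have := key A hA; linarith)
      (by rw [hMA]; rw [hpow] at h2; linarith) a b
      (ha.trans (mul_le_mul_of_nonneg_left
        (div_le_div_of_nonneg_left (by positivity) hlM hlMB) (by norm_num))) hb
    have i2 := ih M B (hA.trans hAM) (by have := key M (hA.trans hAM); linarith)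
      (by
        rw [hBM]; rw [hpow] at h2
        have : (2 : ℝ) ^ j * A ≤ 2 ^ j * M := mul_le_mul_of_nonneg_left hAM (by positivity)
        linarith) a b ha
      (le_trans (mul_le_mul_of_nonneg_left
        (div_le_div_of_nonneg_left (by positivity) hlA hlAM) (by norm_num)) hb)
    have s1 : AF F A M ⊆ AF F A B := fun x hx => (mem_AF hfin (by linarith)).mpr
      (simple_mono ((mem_AF hfin (by linarith)).mp hx) le_rfl hMB)
    have s2 : AF F M B ⊆ AF F A B := fun x hx => (mem_AF hfin (by linarith)).mpr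
      (simple_mono ((mem_AF hfin (by linarith)).mp hx) hAM le_rfl)
    have hdisj : Disjoint (AF F A M) (AF F M B) := by
      rw [Finset.disjoint_left]
      intro x hx hx'
      have h5 := simple_bd ((mem_AF hfin (by linarith)).mp hx)
      have h6 := simple_bd ((mem_AF hfin (by linarith)).mp hx')
      linarith [h5.2, h6.1]
    have h6 := Pool.Agent.W201.PC_union s1 s2 hdisj a b
    have h7 : (Pool.Agent.W201.PC (AF F A M) a b : ℝ) + Pool.Agent.W201.PC (AF F M B) a b ≤
      Pool.Agent.W201.PC (AF F A B) a b := by exact_mod_cast h6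
    refine le_trans ?_ ((add_le_add i1 i2).trans h7)
    rw [hMA, hBM]
    have h8 : c * ((B - A) / 2 / (2 * Real.pi) * Real.log A) ≤
        c * ((B - A) / 2 / (2 * Real.pi) * Real.log M) :=
      mul_le_mul_of_nonneg_left (mul_le_mul_of_nonneg_left hlAM
        (div_nonneg (by linarith) (by positivity))) hc
    refine le_trans (le_of_eq ?_) (add_le_add_right h8 _)
    ring

end pieces

/-- Unconditionally, every window `[α, β]` with `α ≤ 2/5` and `β ≥ 5/4` contains a positive
proportion of pairs of zeros. -/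
theorem result (q : ℕ) [NeZero q] (χ : DirichletCharacter ℂ q) (hχ : χ.IsPrimitive) :
    ∃ δ : ℝ, 0 < δ ∧ ∃ T₀ : ℝ, ∀ T : ℝ, T₀ ≤ T → ∀ A B : ℝ, 0 ≤ A → B ≤ T →
      T ^ (1 - δ) ≤ B - A → ∀ α β : ℝ, α ≤ 2 / 5 → 5 / 4 ≤ β →
        1 / 400 * ((B - A) / (2 * Real.pi) * Real.log T) ≤
          (Nsimple (DirichletCharacter.LFunction χ) T A B α β : ℝ) ∧
        Nsimple (DirichletCharacter.LFunction χ) T A B α β ≤
          N (DirichletCharacter.LFunction χ) T A B α β := by
  obtain ⟨d, hd0, hd1, T₁, hT₁, h⟩ :=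
    Pool.Agent.TH299.SW.main_short (H370.good_dirichlet χ hχ)
  have hpi := Real.pi_pos
  have hfin : ∀ A B : ℝ, 0 ≤ A → (zeros (DirichletCharacter.LFunction χ) A B).Finite :=
    fun A B hA => zeros_finite χ hχ A B hA
  obtain ⟨T₂, hT₂⟩ := ((tendsto_rpow_atTop hd0).eventually_ge_atTop 3).exists_forall_of_atTop
  set T₃ : ℝ := max T₁ T₂ with hT₃
  have hT₃1 : T₁ ≤ T₃ := le_max_left _ _
  have hp := pieces hfin (c := 0.0027) (d := d) (T₁ := T₃) (by norm_num) hd0 (hT₁.trans hT₃1)
    (hT₂ T₃ (le_max_right _ _)) (fun T hT => h T (hT₃1.trans hT)) 7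
  set δ : ℝ := min (d / 2) (1 / 20000) with hδ
  have hδ0 : 0 < δ := lt_min (by linarith) (by norm_num)
  have hδ1 : δ ≤ d / 2 := min_le_left _ _
  have hδ2 : δ ≤ 1 / 20000 := min_le_right _ _
  have t1 : Tendsto (fun T : ℝ => T ^ (1 - δ)) atTop atTop :=
    tendsto_rpow_atTop (by linarith)
  obtain ⟨T₄, hT₄⟩ := (t1.eventually_ge_atTop (128 * T₃)).exists_forall_of_atTop
  obtain ⟨T₅, hT₅⟩ := ((tendsto_rpow_atTop (show 0 < d / 2 by linarith)).eventually_ge_atTop
    (128 / 127)).exists_forall_of_atTop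
  obtain ⟨T₆, hT₆⟩ := (Real.tendsto_log_atTop.eventually_ge_atTop
    (20000 * Real.log 128)).exists_forall_of_atTop
  refine ⟨δ, hδ0, max (max T₄ T₅) (max T₆ 10), fun T hT A B hA hBT hAB α β hα hβ =>
    ⟨?_, Nsimple_le (hfin A B hA) _ _ _⟩⟩
  have hTT4 := hT₄ T (((le_max_left _ _).trans (le_max_left _ _)).trans hT)
  have hTT5 := hT₅ T (((le_max_right _ _).trans (le_max_left _ _)).trans hT)
  have hTT6 := hT₆ T (((le_max_left _ _).trans (le_max_right _ _)).trans hT)
  have hT10 : 10 ≤ T := ((le_max_right _ _).trans (le_max_right _ _)).trans hT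
  have hT0 : 0 < T := by linarith
  have hL : 0 < Real.log T := Real.log_pos (by linarith)
  have h128 : 0 < Real.log 128 := Real.log_pos (by norm_num)
  have hT₃0 : 10 ≤ T₃ := hT₁.trans hT₃1
  have hBA : 0 < B - A := lt_of_lt_of_le (Real.rpow_pos_of_pos hT0 _) hAB
  obtain ⟨A₀, hA₀⟩ : ∃ A₀ : ℝ, A₀ = max A ((B - A) / 128) := ⟨_, rfl⟩
  have a1 : A ≤ A₀ := by rw [hA₀]; exact le_max_left _ _
  have a2 : (B - A) / 128 ≤ A₀ := by rw [hA₀]; exact le_max_right _ _
  have a3 : 127 / 128 * (B - A) ≤ B - A₀ := by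
    rcases max_choice A ((B - A) / 128) with h1 | h1
    · rw [h1] at hA₀; rw [hA₀]; linarith
    · rw [h1] at hA₀; rw [hA₀]; linarith
  have a4 : B - A₀ ≤ 2 ^ 7 * A₀ := by
    norm_num
    linarith
  have a5 : A₀ ≤ T := by
    have : 0 < 127 / 128 * (B - A) := by linarith
    linarith
  have a6 : T₃ ≤ A₀ := by
    refine le_trans ?_ a2
    rw [le_div_iff₀ (by norm_num)]
    linarith
  have hA₀0 : 0 < A₀ := by linarith
  have a7 : A₀ ^ (1 - d) ≤ B - A₀ := by
    refine le_trans ?_ a3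
    have e1 : T ^ (1 - d) * T ^ (d / 2) ≤ T ^ (1 - δ) := by
      rw [← Real.rpow_add hT0]
      exact Real.rpow_le_rpow_of_exponent_le (by linarith) (by linarith)
    have e2 : A₀ ^ (1 - d) ≤ T ^ (1 - d) := Real.rpow_le_rpow hA₀0.le a5 (by linarith)
    have e3 : 0 ≤ T ^ (1 - d) := Real.rpow_nonneg hT0.le _
    nlinarith
  have hlA : 0 < Real.log A₀ := Real.log_pos (by linarith)
  have hBp : 0 < B := by linarith
  have hlB : 0 < Real.log B := by
    apply Real.log_pos
    have : 0 ≤ B - A₀ := (Real.rpow_nonneg hA₀0.le _).trans a7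
    linarith
  have hlBT : Real.log B ≤ Real.log T := Real.log_le_log hBp hBT
  have hlog : 9999 / 10000 * Real.log T ≤ Real.log A₀ := by
    have e1 : T ^ (1 - δ) / 128 ≤ A₀ := by
      refine le_trans ?_ a2
      linarith
    have e2 := Real.log_le_log (by positivity) e1
    rw [Real.log_div (by positivity) (by norm_num), Real.log_rpow hT0] at e2
    have e3 : δ * Real.log T ≤ 1 / 20000 * Real.log T :=
      mul_le_mul_of_nonneg_right hδ2 hL.le
    nlinarith
  have h1 := hp A₀ B a6 a7 a4 (2 * Real.pi * α / Real.log T) (2 * Real.pi * β / Real.log T)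
    (by
      rw [mul_div_assoc', div_le_div_iff₀ hL hlB]
      have e1 : 2 * Real.pi * α ≤ 2 / 5 * (2 * Real.pi) := by nlinarith
      have e2 : 2 * Real.pi * α * Real.log B ≤ 2 / 5 * (2 * Real.pi) * Real.log B :=
        mul_le_mul_of_nonneg_right e1 hlB.le
      have e3 : 2 / 5 * (2 * Real.pi) * Real.log B ≤ 2 / 5 * (2 * Real.pi) * Real.log T :=
        mul_le_mul_of_nonneg_left hlBT (by positivity)
      linarith)
    (by
      rw [mul_div_assoc', div_le_div_iff₀ hlA hL]
      have h3 : 5 / 4 * (9999 / 10000 * Real.log T) ≤ β * Real.log A₀ :=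
        mul_le_mul hβ hlog (by positivity) (by linarith)
      have h4 : 1.2495 * Real.log T ≤ β * Real.log A₀ := by
        norm_num at h3 ⊢
        linarith
      have h5 := mul_le_mul_of_nonneg_left h4 (show 0 ≤ 2 * Real.pi by positivity)
      norm_num at h5 ⊢
      linarith)
  have h2 := PC_le (α := α) (β := β) (hfin A B hA) (show 1 < T by linarith)
    (AF (DirichletCharacter.LFunction χ) A₀ B)
    (fun x hx => simple_mono ((mem_AF hfin hA₀0.le).mp hx) a1 le_rfl)
  have h2' : (Pool.Agent.W201.PC (AF (DirichletCharacter.LFunction χ) A₀ B)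
      (2 * Real.pi * α / Real.log T) (2 * Real.pi * β / Real.log T) : ℝ) ≤
      (Nsimple (DirichletCharacter.LFunction χ) T A B α β : ℝ) := by
    exact_mod_cast h2
  refine le_trans ?_ (h1.trans h2')
  have h3 : 127 / 128 * (B - A) / (2 * Real.pi) * (9999 / 10000 * Real.log T) ≤
      (B - A₀) / (2 * Real.pi) * Real.log A₀ := by
    apply mul_le_mul _ hlog (by positivity)
    · exact div_nonneg (by linarith) (by positivity)
    · exact div_le_div_of_nonneg_right a3 (by positivity)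
  refine le_trans ?_ (mul_le_mul_of_nonneg_left h3 (by norm_num))
  have e2 : 0.0027 * (127 / 128 * (B - A) / (2 * Real.pi) * (9999 / 10000 * Real.log T)) =
      (0.0027 * (127 / 128) * (9999 / 10000)) * ((B - A) / (2 * Real.pi) * Real.log T) := by
    ring
  rw [e2]
  apply mul_le_mul_of_nonneg_right _ (by positivity)
  norm_num

end Pool.Agent.Results.MP_8958e8_nt.ShortWindow
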